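import Pool.Agent.P8H10.KM.IndR

/-!
# Project KM: transcendence degrees over the field of rationally approximable numbers
-/

set_option autoImplicit false

open Filter Topology Complex Finset Pool.Agent.R347.LW

namespace Pool.Agent.P8H10.KM

variable {q : ℕ → ℕ}

/-- lower bound of the transcendence degree -/
theorem le_trdegR {R : IntermediateField ℚ ℂ} {F : IntermediateField R ℂ} {ι : Type} (y : ι → ℂ)
    (hF : ∀ i, y i ∈ F) (hy : AlgebraicIndependent R y) : Cardinal.mk ι ≤ Algebra.trdeg R F := by
  have h1 : AlgebraicIndependent R (fun i => (⟨y i, hF i⟩ : F)) :=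
    AlgebraicIndependent.of_comp F.val hy
  exact h1.cardinalMk_le_trdeg

/-- `exp (t j)` is algebraic over the field generated by the `exp (t (a i))` -/
theorem alg_overR (R : IntermediateField ℚ ℂ) {n m : ℕ} (t : Fin n → ℂ) (a : Fin m → Fin n)
    (j : Fin n)
    (h : Lam.mkQ (t j) ∈ Submodule.span ℚ (Set.range fun i => Lam.mkQ (t (a i)))) :
    IsAlgebraic (IntermediateField.adjoin R (Set.range fun i => exp (t (a i)))) (exp (t j)) := by
  set F := IntermediateField.adjoin R (Set.range fun i => exp (t (a i))) with hF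
  obtain ⟨c, hc⟩ := (Submodule.mem_span_range_iff_exists_fun ℚ).1 h
  have h1 : t j - ∑ i, c i • t (a i) ∈ Lam := by
    rw [← Submodule.Quotient.mk_eq_zero, ← Submodule.mkQ_apply, map_sub, map_sum, sub_eq_zero, ← hc]
    exact Finset.sum_congr rfl fun i _ => (map_smul _ _ _).symm
  have h2 : IsAlgebraic F (exp (t j - ∑ i, c i • t (a i))) :=
    (mem_Lam.1 h1).extendScalars (algebraMap ℚ F).injective
  have h3 : IsAlgebraic F (exp (∑ i, c i • t (a i))) := by
    rw [Complex.exp_sum]
    refine Finset.prod_induction _ (IsAlgebraic F) (fun x y hx hy => hx.mul hy) isAlgebraic_one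
      fun i _ => ?_
    refine IsAlgebraic.of_pow (c i).den_pos ?_
    have h4 : exp (c i • t (a i)) ^ (c i).den = exp (t (a i)) ^ (c i).num := by
      rw [← Complex.exp_nat_mul, ← Complex.exp_int_mul]
      congr 1
      rw [Rat.smul_def, ← mul_assoc]
      congr 1
      exact_mod_cast Rat.den_mul_eq_num (c i)
    rw [h4]
    have h5 : exp (t (a i)) ^ (c i).num ∈ F :=
      zpow_mem (IntermediateField.subset_adjoin R (Set.range fun i => exp (t (a i)))
        (Set.mem_range_self i)) _
    exact isAlgebraic_algebraMap (A := ℂ) (⟨exp (t (a i)) ^ (c i).num, h5⟩ : ↥F)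
  have h6 := h2.mul h3
  rw [← Complex.exp_add, sub_add_cancel] at h6
  exact h6

/-- upper bound of the transcendence degree -/
theorem trdeg_leR (R : IntermediateField ℚ ℂ) {n m : ℕ} (t : Fin n → ℂ) (a : Fin m → Fin n)
    (h : ∀ j, Lam.mkQ (t j) ∈ Submodule.span ℚ (Set.range fun i => Lam.mkQ (t (a i)))) :
    Algebra.trdeg R (IntermediateField.adjoin R (Set.range fun j => exp (t j))) ≤ m := by
  set A := IntermediateField.adjoin R (Set.range fun j => exp (t j)) with hA
  set F := IntermediateField.adjoin R (Set.range fun i => exp (t (a i))) with hF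
  have hFA : F ≤ A := by
    rw [hF, IntermediateField.adjoin_le_iff]
    rintro _ ⟨i, rfl⟩
    exact IntermediateField.subset_adjoin _ _ ⟨a i, rfl⟩
  -- the elements of `A` are algebraic over `F`
  have hAF : ∀ z ∈ A, IsAlgebraic F z := by
    have h1 : A ≤ (algebraicClosure F ℂ).restrictScalars R := by
      rw [hA, IntermediateField.adjoin_le_iff]
      rintro _ ⟨j, rfl⟩
      exact mem_algebraicClosure_iff.2 (alg_overR R t a j (h j))
    intro z hz
    exact mem_algebraicClosure_iff.1 (h1 hz)
  let y : Fin m → A := fun i => ⟨exp (t (a i)), IntermediateField.subset_adjoin _ _ ⟨a i, rfl⟩⟩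
  have halg : Algebra.IsAlgebraic (Algebra.adjoin R (Set.range y)) A := by
    refine ⟨fun z => ?_⟩
    have h2 : IsAlgebraic (Algebra.adjoin R (Set.range fun i => exp (t (a i)))) (z : ℂ) := by
      have h3 := hAF z z.2
      rwa [hF, IntermediateField.isAlgebraic_adjoin_iff] at h3
    let f : A →ₐ[R] ℂ := A.val
    have hf : Function.Injective f := Subtype.val_injective
    have h3 : (Algebra.adjoin R (Set.range y)).map f =
        Algebra.adjoin R (Set.range fun i => exp (t (a i))) := by
      rw [AlgHom.map_adjoin, ← Set.range_comp]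
      rfl
    rw [← h3] at h2
    let g := (Algebra.adjoin R (Set.range y)).equivMapOfInjective f hf
    exact (isAlgebraic_ringHom_iff_of_comp_eq g f hf (by ext; rfl) (a := z)).1 h2
  have h1 := Algebra.IsAlgebraic.trdeg_le_cardinalMk R (Set.range y)
  refine h1.trans ?_
  have := Cardinal.mk_range_le (f := y)
  simpa using this

/-- **The transcendence degree of the field generated by the values.** -/
theorem trdeg_expR (hL : S_LIO2) (hq : ∀ i, 2 ≤ q i) {n : ℕ} (t : Fin n → ℂ)
    (ht : ∀ j, InM q (t j)) :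
    Algebra.trdeg (RC hq) (IntermediateField.adjoin (RC hq) (Set.range fun j => exp (t j))) =
      rk t := by
  obtain ⟨a, hli, hsp⟩ := exists_basis t
  refine le_antisymm (trdeg_leR (RC hq) t a hsp) ?_
  have h1 := alg_ind_modR hL hq (fun i => t (a i)) (fun i => ht (a i)) hli
  have h2 := le_trdegR (F := IntermediateField.adjoin (RC hq) (Set.range fun j => exp (t j))) _
    (fun i => IntermediateField.subset_adjoin _ _ ⟨a i, rfl⟩) h1
  simpa using h2

theorem two_pi_I_notMem (hq : ∀ i, 2 ≤ q i) : 2 * (Real.pi : ℂ) * I ∉ UK hq := by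
  intro h
  have hI : I ∈ UK hq := by
    refine Appr.ofAlg hq (Polynomial.X ^ 2 + 1) ?_ ?_
    · intro h0
      have h1 := congrArg (fun P : Polynomial ℤ => P.eval 0) h0
      simp at h1
    · simp
  have h2 : (Real.pi : ℂ) = 2 * (Real.pi : ℂ) * I * ((2 : ℂ) * I)⁻¹ := by
    have := Complex.I_ne_zero
    field_simp
  have h3 : (Real.pi : ℂ) ∈ UK hq := by
    rw [h2]
    exact mul_mem h (inv_mem (mul_mem (ofNat_mem _ 2) hI))
  exact pi_notMem hq h3

/-- the values together with `2 π i` are algebraically independent -/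
theorem alg_ind_pi (hL : S_LIO2) (hq : ∀ i, 2 ≤ q i) {n : ℕ} (t : Fin n → ℂ)
    (ht : ∀ j, InM q (t j)) (hli : LinearIndependent ℚ (fun j => Lam.mkQ (t j))) :
    AlgebraicIndependent (RC hq)
      (fun o : Option (Fin n) => o.elim (2 * (Real.pi : ℂ) * I) fun j => exp (t j)) := by
  have h1 := alg_ind_modR hL hq t ht hli
  have htr : Transcendental (UK hq) (2 * (Real.pi : ℂ) * I) := by
    intro halg
    have := UK_closed hq
    obtain ⟨t, ht⟩ := minpoly.mem_range_of_degree_eq_one (UK hq) _
      (IsAlgClosed.degree_eq_one_of_irreducible (UK hq) (minpoly.irreducible halg.isIntegral))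
    exact two_pi_I_notMem hq (ht ▸ t.2)
  refine (h1.option_iff_transcendental (2 * (Real.pi : ℂ) * I)).2 (fun halg => htr ?_)
  -- the values are in `K`
  obtain ⟨P, hP, hP0⟩ := halg
  have hle : ∀ z ∈ Algebra.adjoin (RC hq) (Set.range fun j => exp (t j)), z ∈ UK hq := by
    intro z hz
    induction hz using Algebra.adjoin_induction with
    | mem x hx =>
      obtain ⟨j, rfl⟩ := hx
      exact exp_mem hq (ht j)
    | algebraMap r => exact RC_le hq r.2
    | add x y _ _ h1 h2 => exact add_mem h1 h2
    | mul x y _ _ h1 h2 => exact mul_mem h1 h2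
  let g : Algebra.adjoin (RC hq) (Set.range fun j => exp (t j)) →+* UK hq :=
    { toFun := fun z => ⟨z, hle z z.2⟩
      map_one' := rfl
      map_mul' := fun _ _ => rfl
      map_zero' := rfl
      map_add' := fun _ _ => rfl }
  have hg : Function.Injective g := fun a b hab =>
    Subtype.ext (congrArg (fun z : UK hq => (z : ℂ)) hab)
  refine ⟨P.map g, (Polynomial.map_ne_zero_iff hg).2 hP, ?_⟩
  rw [Polynomial.aeval_def, Polynomial.eval₂_map]
  exact hP0

/-- **The transcendence degree of the field of periods.** -/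
theorem trdeg_periodsR (hL : S_LIO2) (hq : ∀ i, 2 ≤ q i) {n : ℕ} (t : Fin n → ℂ)
    (ht : ∀ j, InM q (t j)) :
    (rk t : Cardinal) + 1 ≤ Algebra.trdeg (RC hq) (IntermediateField.adjoin (RC hq)
      ({2 * (Real.pi : ℂ) * I} ∪ Set.range t ∪ Set.range fun j => exp (t j))) := by
  obtain ⟨a, hli, hsp⟩ := exists_basis t
  have h2 := alg_ind_pi hL hq (fun i => t (a i)) (fun i => ht (a i)) hli
  have h3 := le_trdegR (F := IntermediateField.adjoin (RC hq)
      ({2 * (Real.pi : ℂ) * I} ∪ Set.range t ∪ Set.range fun j => exp (t j))) _ (fun o => by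
    rcases o with _ | i
    · exact IntermediateField.subset_adjoin _ _ (Or.inl (Or.inl rfl))
    · exact IntermediateField.subset_adjoin _ _ (Or.inr ⟨a i, rfl⟩)) h2
  simpa using h3

/-- the same over `ℚ` -/
theorem trdeg_periodsQ (hL : S_LIO2) (hq : ∀ i, 2 ≤ q i) {n : ℕ} (t : Fin n → ℂ)
    (ht : ∀ j, InM q (t j)) :
    (rk t : Cardinal) + 1 ≤ Algebra.trdeg ℚ (IntermediateField.adjoin ℚ
      ({2 * (Real.pi : ℂ) * I} ∪ Set.range t ∪ Set.range fun j => exp (t j))) := by
  obtain ⟨a, hli, hsp⟩ := exists_basis t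
  have h2 : AlgebraicIndependent ℚ
      (fun o : Option (Fin (rk t)) => o.elim (2 * (Real.pi : ℂ) * I) fun i => exp (t (a i))) :=
    (alg_ind_pi hL hq (fun i => t (a i)) (fun i => ht (a i)) hli).restrictScalars
      (algebraMap ℚ (RC hq)).injective
  have h3 := le_trdeg (F := IntermediateField.adjoin ℚ
      ({2 * (Real.pi : ℂ) * I} ∪ Set.range t ∪ Set.range fun j => exp (t j))) _ (fun o => by
    rcases o with _ | i
    · exact IntermediateField.subset_adjoin _ _ (Or.inl (Or.inl rfl))
    · exact IntermediateField.subset_adjoin _ _ (Or.inr ⟨a i, rfl⟩)) h2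
  simpa using h3

end Pool.Agent.P8H10.KM
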