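import Pool.Agent.P8H10.KM.TrdR
import Pool.Agent.P8H4.KM.Irr

/-!
# Project KM: the criterion for independence modulo the logarithms, and the explicit numbers
-/

set_option autoImplicit false

open Filter Topology Complex Finset Pool.Agent.R347.LW

namespace Pool.Agent.P8H10.KM

variable {q : ℕ → ℕ}

/-- A combination, with rationally approximable coefficients, of independent logarithms of algebraic
numbers is the logarithm of an algebraic number only if the coefficients are rational. -/
theorem rational_of_mem (hL : S_LIO) (hq : ∀ i, 2 ≤ q i) {s : ℕ} (l : Fin s → ℂ)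
    (hl : ∀ k, IsAlgebraic ℚ (exp (l k))) (hli : LinearIndependent ℚ l) (y : Fin s → ℝ)
    (hy : ∀ k, RAppr q (y k)) (h : ∑ k, (y k : ℂ) * l k ∈ Lam) : ∀ k, ∃ r : ℚ, y k = r := by
  set t : ℂ := ∑ k, (y k : ℂ) * l k with ht
  obtain ⟨u, v, hv, hlim, hrel⟩ := hL q hq s 2 l hl ![y, 0] (by
    intro j k
    fin_cases j
    · exact hy k
    · exact rappr_zero) ![1, -exp t] (by
    intro j
    fin_cases j
    · exact isAlgebraic_one
    · exact (mem_Lam.1 h).neg) (by
    rw [Fin.sum_univ_two]
    simp [← ht])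
  -- the approximations of `t`
  set r : ℕ → Fin s → ℚ := fun m k => ((u m 0 k - u m 1 k : ℤ) : ℚ) / v m with hr
  have hz : ∀ m, exp (∑ k, (r m k : ℂ) * l k) = exp t := by
    intro m
    have h1 := hrel m
    rw [Fin.sum_univ_two] at h1
    simp only [Matrix.cons_val_zero, Matrix.cons_val_one, one_mul] at h1
    have h2 : ∑ k, (r m k : ℂ) * l k =
        ∑ k, (u m 0 k : ℂ) / v m * l k - ∑ k, (u m 1 k : ℂ) / v m * l k := by
      rw [← Finset.sum_sub_distrib]
      refine Finset.sum_congr rfl fun k _ => ?_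
      rw [hr]
      push_cast
      ring
    rw [h2, Complex.exp_sub]
    have h3 := Complex.exp_ne_zero (∑ k, (u m 1 k : ℂ) / v m * l k)
    rw [div_eq_iff h3]
    linear_combination h1
  have hrlim : ∀ k, Tendsto (fun m => (r m k : ℝ)) atTop (𝓝 (y k)) := by
    intro k
    have h1 := (hlim 0 k).sub (hlim 1 k)
    simp only [Matrix.cons_val_zero, Matrix.cons_val_one, Pi.zero_apply, sub_zero] at h1
    refine h1.congr fun m => ?_
    rw [hr]
    push_cast
    ring
  have hzlim : Tendsto (fun m => ∑ k, (r m k : ℂ) * l k) atTop (𝓝 t) := by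
    refine tendsto_finset_sum _ fun k _ => Tendsto.mul_const _ ?_
    have := (Complex.continuous_ofReal.tendsto _).comp (hrlim k)
    refine this.congr fun m => ?_
    simp
  have hev : ∀ᶠ m in atTop, ∑ k, (r m k : ℂ) * l k = t := by
    have h1 := hzlim.eventually (Metric.ball_mem_nhds t one_pos)
    refine h1.mono fun m hm => ?_
    obtain ⟨N, hN⟩ := Complex.exp_eq_exp_iff_exists_int.1 (hz m)
    rw [dist_eq_norm, hN, add_sub_cancel_left, norm_mul, norm_mul] at hm
    have h2 : N = 0 := by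
      by_contra hN0
      have h3 : (1 : ℝ) ≤ ‖(N : ℂ)‖ := by
        rw [Complex.norm_intCast]
        exact_mod_cast Int.one_le_abs hN0
      have h4 : (1 : ℝ) ≤ ‖(2 * (Real.pi : ℂ))‖ * ‖I‖ := by
        rw [Complex.norm_I, mul_one, norm_mul, Complex.norm_real, Real.norm_eq_abs,
          abs_of_pos Real.pi_pos]
        have := Real.pi_gt_three
        norm_num
        linarith
      nlinarith
    rw [hN, h2]
    simp
  obtain ⟨m₀, hm₀⟩ := eventually_atTop.1 hev
  intro k
  refine ⟨r m₀ k, ?_⟩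
  have hconst : ∀ m ≥ m₀, r m k = r m₀ k := by
    intro m hm
    have h1 : ∑ k, (r m k - r m₀ k) • l k = 0 := by
      have h2 : ∀ k, (r m k - r m₀ k) • l k = (r m k : ℂ) * l k - (r m₀ k : ℂ) * l k := by
        intro k
        rw [sub_smul, Rat.smul_def, Rat.smul_def]
      simp_rw [h2]
      rw [Finset.sum_sub_distrib, hm₀ m hm, hm₀ m₀ le_rfl, sub_self]
    have h3 := Fintype.linearIndependent_iff.1 hli _ h1 k
    linarith
  have h5 : Tendsto (fun m => (r m k : ℝ)) atTop (𝓝 (r m₀ k : ℝ)) :=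
    tendsto_const_nhds.congr' (eventually_atTop.2 ⟨m₀, fun m hm => by
      show (r m₀ k : ℝ) = (r m k : ℝ)
      rw [hconst m hm]⟩)
  exact tendsto_nhds_unique (hrlim k) h5

/-- independent logarithms are independent over the field of rationally approximable numbers -/
theorem liR (hL : S_LIO) (hq : ∀ i, 2 ≤ q i) {s : ℕ} (l : Fin s → ℂ)
    (hl : ∀ k, IsAlgebraic ℚ (exp (l k))) (hli : LinearIndependent ℚ l) :
    LinearIndependent (RC hq) l := by
  rw [Fintype.linearIndependent_iff]
  intro c hc k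
  have h1 : ∀ k, ∃ y : ℝ, RAppr q y ∧ ((c k : RC hq) : ℂ) = y := fun k => (mem_RC hq).1 (c k).2
  choose y hy1 hy2 using h1
  have h2 : ∑ k, (y k : ℂ) * l k = 0 := by
    rw [← hc]
    refine Finset.sum_congr rfl fun k _ => ?_
    rw [← hy2 k]
    rfl
  have h3 := rational_of_mem hL hq l hl hli y hy1 (by rw [h2]; exact zero_mem _)
  choose r hr using h3
  have h4 : ∑ k, r k • l k = 0 := by
    rw [← h2]
    refine Finset.sum_congr rfl fun k _ => ?_
    rw [hr k, Rat.smul_def]
    push_cast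
    rfl
  have h5 := Fintype.linearIndependent_iff.1 hli _ h4 k
  refine Subtype.ext ?_
  rw [hy2 k, hr k, h5]
  simp

/-- the criterion -/
theorem crit (hL : S_LIO) (hq : ∀ i, 2 ≤ q i) {s n : ℕ} (l : Fin s → ℂ)
    (hl : ∀ k, IsAlgebraic ℚ (exp (l k))) (hli : LinearIndependent ℚ l) (x : Fin n → Fin s → ℝ)
    (hx : ∀ j k, RAppr q (x j k)) :
    LinearIndependent ℚ (fun j => Lam.mkQ (∑ k, (x j k : ℂ) * l k)) ↔
      ∀ m : Fin n → ℤ, (∀ k, ∃ r : ℚ, ∑ j, m j * x j k = r) → m = 0 := by
  have hsum : ∀ m : Fin n → ℚ, ∑ j, m j • (∑ k, (x j k : ℂ) * l k) =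
      ∑ k, ((∑ j, (m j : ℝ) * x j k : ℝ) : ℂ) * l k := by
    intro m
    push_cast
    simp_rw [Rat.smul_def, Finset.sum_mul, Finset.mul_sum]
    rw [Finset.sum_comm]
    refine Finset.sum_congr rfl fun j _ => Finset.sum_congr rfl fun k _ => ?_
    ring
  have hmk : ∀ m : Fin n → ℚ, ∑ j, m j • Lam.mkQ (∑ k, (x j k : ℂ) * l k) =
      Lam.mkQ (∑ j, m j • (∑ k, (x j k : ℂ) * l k)) := by
    intro m
    rw [map_sum]
    exact Finset.sum_congr rfl fun j _ => (map_smul _ _ _).symm
  constructor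
  · intro h m hm
    choose r hr using hm
    have h1 : ∑ j, (m j : ℚ) • Lam.mkQ (∑ k, (x j k : ℂ) * l k) = 0 := by
      rw [hmk, hsum, Submodule.mkQ_apply, Submodule.Quotient.mk_eq_zero]
      refine sum_mem fun k _ => ?_
      have h2 : ((∑ j, (((m j : ℤ) : ℚ) : ℝ) * x j k : ℝ) : ℂ) * l k = r k • l k := by
        rw [Rat.smul_def]
        congr 1
        have h3 : (∑ j, (((m j : ℤ) : ℚ) : ℝ) * x j k : ℝ) = (r k : ℝ) := by
          rw [← hr k]
          refine Finset.sum_congr rfl fun j _ => ?_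
          push_cast
          rfl
        rw [h3]
        push_cast
        rfl
      rw [h2]
      exact Submodule.smul_mem _ _ (hl k)
    have h2 := Fintype.linearIndependent_iff.1 h _ h1
    funext j
    exact_mod_cast h2 j
  · intro h
    rw [Fintype.linearIndependent_iff]
    intro m hm
    rw [hmk, hsum, Submodule.mkQ_apply, Submodule.Quotient.mk_eq_zero] at hm
    have h1 := rational_of_mem hL hq l hl hli (fun k => ∑ j, (m j : ℝ) * x j k)
      (fun k => rappr_sum hq _ _ fun j _ => (RAppr.rat (m j)).mul hq (hx j k)) hm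
    -- clear the denominators
    set D : ℕ := ∏ j, (m j).den with hD
    have hD0 : D ≠ 0 := Finset.prod_ne_zero_iff.2 fun j _ => (m j).den_nz
    have hdvd : ∀ j, ∃ a : ℤ, (a : ℚ) = D * m j := by
      intro j
      obtain ⟨b, hb⟩ := Finset.dvd_prod_of_mem (fun j => (m j).den) (Finset.mem_univ j)
      refine ⟨b * (m j).num, ?_⟩
      rw [hD, hb]
      push_cast
      have := Rat.den_mul_eq_num (m j)
      rw [← this]
      ring
    choose a ha using hdvd
    have h2 := h a (fun k => by
      obtain ⟨r, hr⟩ := h1 k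
      refine ⟨D * r, ?_⟩
      push_cast
      rw [← hr, Finset.mul_sum]
      refine Finset.sum_congr rfl fun j _ => ?_
      have h3 : ((a j : ℤ) : ℝ) = (D : ℝ) * (m j : ℝ) := by exact_mod_cast ha j
      rw [h3]
      ring)
    intro j
    have h3 := ha j
    rw [h2] at h3
    simp only [Pi.zero_apply, Int.cast_zero] at h3
    have h4 : (D : ℚ) ≠ 0 := by exact_mod_cast hD0
    exact (mul_eq_zero.1 h3.symm).resolve_left h4

/-- explicit examples -/
theorem example_li (hL : S_LIO) {n : ℕ} (S : Fin n → Set ℕ) (hS : ∀ j, (S j).Infinite)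
    (hd : ∀ i j, i ≠ j → Disjoint (S i) (S j)) (l : ℂ) (hl : IsAlgebraic ℚ (exp l)) (hl0 : l ≠ 0) :
    LinearIndependent ℚ (fun j => Lam.mkQ ((xiT (S j) : ℂ) * l)) := by
  have h1 := (crit hL two_le_qT (s := 1) (n := n) (fun _ => l) (fun _ => hl)
    (linearIndependent_unique_iff.2 hl0) (fun j _ => xiT (S j)) (fun j _ => xiT_rappr _)).2
    (fun m hm => by
      by_contra hm0
      obtain ⟨r, hr⟩ := hm 0
      exact Pool.Agent.P8H4.KM.irr n S hS hd m hm0 ⟨r, hr.symm⟩)
  simpa using h1

/-- elements of the span -/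
theorem inM_of_span (hq : ∀ i, 2 ≤ q i) {z : ℂ}
    (hz : z ∈ Submodule.span (RC hq) {l : ℂ | IsAlgebraic ℚ (exp l)}) : InM q z := by
  induction hz using Submodule.span_induction with
  | mem x hx =>
    refine ⟨1, fun _ => 1, fun _ => x, fun _ => ?_, fun _ => hx, by simp⟩
    have := RAppr.rat (q := q) 1
    simpa using this
  | zero => exact ⟨0, Fin.elim0, Fin.elim0, fun k => k.elim0, fun k => k.elim0, by simp⟩
  | add x y _ _ h1 h2 =>
    obtain ⟨s, l, x', hl, hx', h⟩ := common ![x, y] (by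
      intro j
      fin_cases j
      · exact h1
      · exact h2)
    refine ⟨s, fun k => x' 0 k + x' 1 k, l, fun k => (hx' 0 k).add hq (hx' 1 k), hl, ?_⟩
    have e1 := h 0
    have e2 := h 1
    simp only [Matrix.cons_val_zero, Matrix.cons_val_one] at e1 e2
    rw [e1, e2, ← Finset.sum_add_distrib]
    refine Finset.sum_congr rfl fun k _ => ?_
    push_cast
    ring
  | smul a x _ h1 =>
    obtain ⟨s, x', l, hx', hl, rfl⟩ := h1
    obtain ⟨y, hy, hay⟩ := (mem_RC hq).1 a.2
    refine ⟨s, fun k => y * x' k, l, fun k => hy.mul hq (hx' k), hl, ?_⟩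
    have e1 : a • ∑ k, (x' k : ℂ) * l k = (y : ℂ) * ∑ k, (x' k : ℂ) * l k := by
      rw [← hay]
      rfl
    rw [e1, Finset.mul_sum]
    refine Finset.sum_congr rfl fun k _ => ?_
    push_cast
    ring

end Pool.Agent.P8H10.KM
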