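import Pool.Agent.P8H10.KM.Kpm
import Pool.Agent.P8H4.KM.Lio2

/-!
# Project KM: independence from the transcendence degree, and the families of examples
-/

set_option autoImplicit false

open Filter Topology Complex Finset Pool.Agent.R347.LW

namespace Pool.Agent.P8H10.KM

variable {q : ℕ → ℕ}

/-- `n` generators of a field of transcendence degree `n` are independent -/
theorem ind_of_trdeg (R : IntermediateField ℚ ℂ) {n : ℕ} (x : Fin n → ℂ)
    (h : (n : Cardinal) ≤ Algebra.trdeg R (IntermediateField.adjoin R (Set.range x))) :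
    AlgebraicIndependent R x := by
  set A := IntermediateField.adjoin R (Set.range x) with hA
  let y : Fin n → A := fun i => ⟨x i, IntermediateField.subset_adjoin _ _ ⟨i, rfl⟩⟩
  have halg : Algebra.IsAlgebraic (Algebra.adjoin R (Set.range y)) A := by
    refine ⟨fun z => ?_⟩
    have h2 : IsAlgebraic (Algebra.adjoin R (Set.range x)) (z : ℂ) := by
      rw [← IntermediateField.isAlgebraic_adjoin_iff]
      exact isAlgebraic_algebraMap (R := IntermediateField.adjoin R (Set.range x)) (A := ℂ) z
    let f : A →ₐ[R] ℂ := A.val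
    have hf : Function.Injective f := Subtype.val_injective
    have h3 : (Algebra.adjoin R (Set.range y)).map f = Algebra.adjoin R (Set.range x) := by
      rw [AlgHom.map_adjoin, ← Set.range_comp]
      rfl
    rw [← h3] at h2
    let g := (Algebra.adjoin R (Set.range y)).equivMapOfInjective f hf
    exact (isAlgebraic_ringHom_iff_of_comp_eq g f hf (by ext; rfl) (a := z)).1 h2
  have h1 := (Algebra.IsAlgebraic.isTranscendenceBasis_of_le_trdeg_of_finite R y (by
    simpa using h)).1
  exact h1.map' (f := A.val) Subtype.val_injective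

/-- the exponentials of elements of `K + R Λ` which are independent modulo `Λ` -/
theorem alg_ind_KM (hL : S_LIO2) (hq : ∀ i, 2 ≤ q i) {n : ℕ} (w z t : Fin n → ℂ)
    (hw : ∀ j, w j = z j + t j) (hz : ∀ j, z j ∈ UK hq) (ht : ∀ j, InM q (t j))
    (hli : LinearIndependent ℚ (fun j => Lam.mkQ (w j))) :
    AlgebraicIndependent (RC hq) (fun j => exp (w j)) :=
  ind_of_trdeg (RC hq) _ (schanuel_KM hL hq w z t hw hz ht hli _
    fun j => IntermediateField.subset_adjoin _ _ ⟨j, rfl⟩)

/-- `K ∩ R Λ = 0` -/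
theorem K_inter (hq : ∀ i, 2 ≤ q i) {z : ℂ} (hz : z ∈ UK hq) (ht : InM q z) : z = 0 := by
  by_contra h0
  have h1 := algIndU' hq (fun _ : Fin 1 => z) (fun _ => hz) (linearIndependent_unique_iff.2 h0)
  have h2 : exp z ∈ UK hq := exp_mem hq ht
  have h3 := h1.transcendental 0
  exact h3 (isAlgebraic_algebraMap (R := UK hq) (A := ℂ) ⟨exp z, h2⟩)

theorem alg_ind_pi' (hL : S_LIO2) (hq : ∀ i, 2 ≤ q i) {ι : Type} [Fintype ι] (t : ι → ℂ)
    (ht : ∀ j, InM q (t j)) (hli : LinearIndependent ℚ (fun j => Lam.mkQ (t j))) :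
    AlgebraicIndependent (RC hq)
      (fun o : Option ι => o.elim (2 * (Real.pi : ℂ) * I) fun j => exp (t j)) := by
  let e : Fin (Fintype.card ι) ≃ ι := (Fintype.equivFin ι).symm
  have h1 := alg_ind_pi hL hq (fun i => t (e i)) (fun i => ht (e i)) (hli.comp e e.injective)
  have h2 : (fun o : Option (Fin (Fintype.card ι)) =>
      o.elim (2 * (Real.pi : ℂ) * I) fun j => exp (t (e j))) =
      (fun o : Option ι => o.elim (2 * (Real.pi : ℂ) * I) fun j => exp (t j)) ∘
        (Equiv.optionCongr e) := by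
    funext o
    cases o <;> rfl
  rw [h2] at h1
  exact (algebraicIndependent_equiv (Equiv.optionCongr e)).1 h1

/-- the family of the `ξ_j l_k` -/
theorem family_li (hL : S_LIO) {n s : ℕ} (S : Fin n → Set ℕ) (hS : ∀ j, (S j).Infinite)
    (hd : ∀ i j, i ≠ j → Disjoint (S i) (S j)) (l : Fin s → ℂ)
    (hl : ∀ k, IsAlgebraic ℚ (exp (l k))) (hli : LinearIndependent ℚ l) :
    LinearIndependent ℚ (fun p : Fin n × Fin s => Lam.mkQ ((xiT (S p.1) : ℂ) * l p.2)) := by
  let e : Fin (n * s) ≃ Fin n × Fin s := finProdFinEquiv.symm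
  let x : Fin (n * s) → Fin s → ℝ := fun i k => if (e i).2 = k then xiT (S (e i).1) else 0
  have hx : ∀ i k, RAppr qT (x i k) := by
    intro i k
    by_cases h : (e i).2 = k
    · simp only [x, if_pos h]
      exact xiT_rappr _
    · simp only [x, if_neg h]
      exact rappr_zero
  have h1 := (crit hL two_le_qT l hl hli x hx).2 (fun m hm => by
    by_contra hm0
    obtain ⟨i₀, hi₀⟩ := Function.ne_iff.1 hm0
    obtain ⟨r, hr⟩ := hm (e i₀).2
    have h2 : (∑ i, (m i : ℝ) * x i (e i₀).2) =
        ∑ j : Fin n, (m (e.symm (j, (e i₀).2)) : ℝ) * xiT (S j) := by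
      rw [← e.symm.sum_comp, Fintype.sum_prod_type]
      refine Finset.sum_congr rfl fun j _ => ?_
      rw [Finset.sum_eq_single (e i₀).2]
      · simp [x]
      · intro k _ hk
        simp [x, hk]
      · intro h
        exact absurd (Finset.mem_univ _) h
    have h3 := Pool.Agent.P8H4.KM.irr n S hS hd (fun j => m (e.symm (j, (e i₀).2))) (by
      refine Function.ne_iff.2 ⟨(e i₀).1, ?_⟩
      simpa using hi₀)
    refine h3 ⟨r, ?_⟩
    rw [← hr, h2])
  have h2 : (fun j => Lam.mkQ (∑ k, (x j k : ℂ) * l k)) =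
      (fun p : Fin n × Fin s => Lam.mkQ ((xiT (S p.1) : ℂ) * l p.2)) ∘ e := by
    funext i
    simp only [Function.comp_apply]
    congr 1
    rw [Finset.sum_eq_single (e i).2]
    · simp [x]
    · intro k _ hk
      simp [x, hk.symm]
    · intro h
      exact absurd (Finset.mem_univ _) h
  rw [h2] at h1
  exact (linearIndependent_equiv e).1 h1

end Pool.Agent.P8H10.KM
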