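import Pool.Agent.P8H10.KM.Stm

/-!
# Project KM: finiteness of the quotients of the terms of the relations between radicals
-/

set_option autoImplicit false

open Finset

namespace Pool.Agent.P8H10.KM

theorem fin_roots {Ω : Type} [Field Ω] {S : Set Ω} (hS : S.Finite)
    (h : ∀ z ∈ S, ∃ n : ℕ, 0 < n ∧ z ^ n = 1) : ∃ W : ℕ, 0 < W ∧ ∀ z ∈ S, z ^ W = 1 := by
  classical
  choose! f hf using h
  refine ⟨∏ z ∈ hS.toFinset, f z, Finset.prod_pos fun z hz => (hf z (hS.mem_toFinset.1 hz)).1,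
    fun z hz => ?_⟩
  obtain ⟨m, hm⟩ := Finset.dvd_prod_of_mem f (hS.mem_toFinset.2 hz)
  rw [hm, pow_mul, (hf z hz).2, one_pow]

theorem fin (hK : S_KUM) (hA : S_ABE) (hN : S_NOR) (hM : S_MAN) : S_FIN := by
  classical
  intro Ω _ _ _ _ s α hα n c B
  set F : IntermediateField ℚ Ω := IntermediateField.adjoin ℚ (Set.range α ∪ Set.range c) with hF
  have hfd : FiniteDimensional ℚ F := by
    have : Finite ↥(Set.range α ∪ Set.range c) := (Set.toFinite _).to_subtype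
    exact IntermediateField.finiteDimensional_adjoin
      (fun x _ => (Algebra.IsAlgebraic.isAlgebraic (R := ℚ) x).isIntegral)
  have hαF : ∀ k, α k ∈ F := fun k => IntermediateField.subset_adjoin _ _ (Or.inl ⟨k, rfl⟩)
  have hcF : ∀ i, c i ∈ F := fun i => IntermediateField.subset_adjoin _ _ (Or.inr ⟨i, rfl⟩)
  -- the roots of unity in `F`
  obtain ⟨W, hW, hWF⟩ : ∃ W : ℕ, 0 < W ∧ ∀ z ∈ F, ∀ m : ℕ, 0 < m → z ^ m = 1 → z ^ W = 1 := by
    have h0 := hN Ω F 0 Fin.elim0 (fun k => k.elim0) 0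
    obtain ⟨W, hW, h⟩ := fin_roots h0 (by
      rintro z ⟨-, q, hq, w, -, h⟩
      exact ⟨q, hq, by simpa using h⟩)
    refine ⟨W, hW, fun z hz m hm hzm => h z ⟨hz, m, hm, Fin.elim0, fun k => k.elim0, ?_⟩⟩
    simpa using hzm
  have hG := hN Ω F s α (fun k => ⟨hαF k, hα k⟩) (2 * W * B)
  set G : Finset Ω := hG.toFinset with hGdef
  have hex : ∀ γ : Ω, ∃ d : Ω, d ^ W = γ := fun γ => IsAlgClosed.exists_pow_nat_eq γ hW
  choose δ hδ using hex
  choose M hM0 hMg using fun g : Fin n → G => hM Ω n (fun i => c i * δ (g i))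
  set M' : ℕ := ∏ g, M g with hM'
  have hM'0 : 0 < M' := Finset.prod_pos fun g _ => hM0 g
  have hfin : ((fun p : (Ω × Ω) × Ω => δ p.1.1 / δ p.1.2 * p.2) ''
      ↑((G ×ˢ G) ×ˢ (Polynomial.nthRootsFinset M' (1 : Ω)))).Finite :=
    Set.Finite.image _ (Finset.finite_toSet _)
  refine hfin.subset ?_
  rintro β ⟨ρ, q, w, hq, hw, hρ, hsum, hmin, i, j, rfl⟩
  have hρ0 : ∀ i, ρ i ≠ 0 := by
    intro i h0
    have h1 := hρ i
    rw [h0, zero_pow hq.ne'] at h1
    exact Finset.prod_ne_zero_iff.2 (fun k _ => zpow_ne_zero _ (hα k)) h1.symm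
  have hρF : ∀ i, ρ i ^ q ∈ F := by
    intro i
    rw [hρ i]
    exact prod_mem fun k _ => zpow_mem (hαF k) _
  set E : IntermediateField ℚ Ω := F ⊔ IntermediateField.adjoin ℚ {z : Ω | z ^ q = 1} with hE
  have hFE : F ≤ E := le_sup_left
  have hμE : ∀ z : Ω, z ^ q = 1 → z ∈ E := fun z hz =>
    (le_sup_right : IntermediateField.adjoin ℚ {z : Ω | z ^ q = 1} ≤ E)
      (IntermediateField.subset_adjoin _ _ hz)
  have hall : ∀ i, ρ i / ρ j ∈ E := by
    have h1 := hK Ω E q hq hμE n c ρ (fun i => hFE (hcF i)) (fun i => ⟨hρ0 i, hFE (hρF i)⟩) hsum j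
      (Finset.univ.filter fun i => ρ i / ρ j ∈ E) (fun i => by simp)
    have h2 := hmin _ ⟨j, by simp [hρ0 j, one_mem]⟩ h1
    intro i
    have h3 : i ∈ Finset.univ.filter fun i => ρ i / ρ j ∈ E := by rw [h2]; exact Finset.mem_univ _
    simpa using h3
  have hab : ∀ i, ∃ η : Ω, η ^ q = 1 ∧ (ρ i / ρ j) ^ W * η ∈ F := fun i =>
    hA Ω F W hW hWF q hq (ρ i / ρ j) (div_ne_zero (hρ0 i) (hρ0 j))
      (by rw [div_pow]; exact div_mem (hρF i) (hρF j)) (hall i)
  choose η hη1 hη2 using hab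
  have hη0 : ∀ i, η i ≠ 0 := by
    intro i h0
    have := hη1 i
    rw [h0, zero_pow hq.ne'] at this
    exact zero_ne_one this
  set γ : Fin n → Ω := fun i => (ρ i / ρ j) ^ W * η i with hγ
  have hγ0 : ∀ i, γ i ≠ 0 := fun i =>
    mul_ne_zero (pow_ne_zero _ (div_ne_zero (hρ0 i) (hρ0 j))) (hη0 i)
  have hγG : ∀ i, γ i ∈ G := by
    intro i
    rw [hGdef, hG.mem_toFinset]
    refine ⟨hη2 i, q, hq, fun k => (W : ℤ) * (w i k - w j k), fun k => ?_, ?_⟩
    · have h1 := hw i k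
      have h2 := hw j k
      rw [abs_mul, abs_of_nonneg (by positivity : (0 : ℤ) ≤ (W : ℤ))]
      have h3 : |w i k - w j k| ≤ 2 * (B * q) := by
        have := abs_sub (w i k) (w j k)
        linarith
      calc (W : ℤ) * |w i k - w j k| ≤ W * (2 * (B * q)) :=
            mul_le_mul_of_nonneg_left h3 (by positivity)
        _ = ((2 * W * B : ℕ) : ℤ) * q := by push_cast; ring
    · have h1 : γ i ^ q = (ρ i ^ q / ρ j ^ q) ^ W := by
        rw [hγ]
        simp only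
        rw [mul_pow, hη1, mul_one, ← div_pow, ← pow_mul, ← pow_mul, mul_comm]
      rw [h1, hρ i, hρ j, ← Finset.prod_div_distrib, ← Finset.prod_pow]
      refine Finset.prod_congr rfl fun k _ => ?_
      rw [← zpow_sub₀ (hα k), ← zpow_natCast, ← zpow_mul, mul_comm]
  have hδ0 : ∀ i, δ (γ i) ≠ 0 := by
    intro i h0
    have := hδ (γ i)
    rw [h0, zero_pow hW.ne'] at this
    exact hγ0 i this.symm
  set η' : Fin n → Ω := fun i => ρ i / ρ j / δ (γ i) with hη'
  have hη'1 : ∀ i, η' i ^ (W * q) = 1 := by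
    intro i
    have h1 : η' i ^ W = (η i)⁻¹ := by
      rw [hη']
      simp only
      rw [div_pow, hδ, hγ]
      simp only
      have h2 : (ρ i / ρ j) ^ W ≠ 0 := pow_ne_zero _ (div_ne_zero (hρ0 i) (hρ0 j))
      field_simp
    rw [pow_mul, h1, inv_pow, hη1, inv_one]
  set g : Fin n → G := fun i => ⟨γ i, hγG i⟩ with hg
  have hterm : ∀ i, c i * δ (g i) * η' i = c i * ρ i / ρ j := by
    intro i
    rw [hη', hg]
    simp only
    have h2 := hδ0 i
    field_simp
  have hJ : ∀ J : Finset (Fin n), ∑ i ∈ J, c i * δ (g i) * η' i = (∑ i ∈ J, c i * ρ i) / ρ j := by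
    intro J
    rw [Finset.sum_div]
    exact Finset.sum_congr rfl fun i _ => hterm i
  have hmain := hMg g η' (fun i => ⟨W * q, Nat.mul_pos hW hq, hη'1 i⟩)
    (by rw [hJ, hsum, zero_div])
    (fun J hJn h0 => hmin J hJn (by
      rw [hJ, div_eq_zero_iff] at h0
      exact h0.resolve_right (hρ0 j))) i j
  have hdvd : M g ∣ M' := Finset.dvd_prod_of_mem M (Finset.mem_univ g)
  have hmain' : (η' i / η' j) ^ M' = 1 := by
    obtain ⟨m, hm⟩ := hdvd
    rw [hm, pow_mul, hmain, one_pow]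
  refine ⟨((γ i, γ j), η' i / η' j), ?_, ?_⟩
  · simp only [Finset.coe_product, Set.mem_prod, Finset.mem_coe]
    exact ⟨⟨hγG i, hγG j⟩, (Polynomial.mem_nthRootsFinset hM'0 _).2 hmain'⟩
  · simp only
    rw [hη']
    simp only
    have h1 := hδ0 i
    have h2 := hδ0 j
    have h3 := hρ0 j
    field_simp

end Pool.Agent.P8H10.KM
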