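import Pool.Agent.P8H10.KM.Fin
import Pool.Agent.P8H52.KM.Man
import Pool.Agent.P8H52.KM.Kum
import Pool.Agent.P8H44.KM.Nor

/-!
# Project KM: finiteness of the quotients of the terms of the relations between radicals, for all
coefficients in a number field
-/

set_option autoImplicit false

open Finset

namespace Pool.Agent.P8H10.KM

section

open IntermediateField Pool.Agent.P8H52.KM.Man

/-- Mann's theorem, uniformly in the coefficients in a number field (from the proof of helper52) -/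
theorem man2 {Ω : Type} [Field Ω] [CharZero Ω] [IsAlgClosed Ω] [Algebra.IsAlgebraic ℚ Ω]
    (F : IntermediateField ℚ Ω) [FiniteDimensional ℚ F] (n : ℕ) : ∃ M : ℕ, 0 < M ∧
    ∀ a : Fin n → Ω, (∀ i, a i ∈ F) →
    ∀ η : Fin n → Ω, (∀ i, ∃ N : ℕ, 0 < N ∧ η i ^ N = 1) → ∑ i, a i * η i = 0 →
    (∀ J : Finset (Fin n), J.Nonempty → ∑ i ∈ J, a i * η i = 0 → J = Finset.univ) →
    ∀ i j, (η i / η j) ^ M = 1 := by
  classical
  obtain ⟨α, hα⟩ : ∃ α : Ω, ∀ z ∈ F, z ∈ ℚ⟮α⟯ := by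
    obtain ⟨α, hα⟩ := Field.exists_primitive_element ℚ F
    refine ⟨α, fun z hz => ?_⟩
    have h2 : (⟨z, hz⟩ : F) ∈ ℚ⟮α⟯ := by rw [hα]; exact IntermediateField.mem_top
    have h3 : ∀ x ∈ ℚ⟮α⟯, (x : Ω) ∈ ℚ⟮(α : Ω)⟯ := by
      intro x hx
      induction hx using IntermediateField.adjoin_induction with
      | mem x hx =>
        rw [Set.mem_singleton_iff.1 hx]
        exact mem_adjoin_simple_self ℚ (α : Ω)
      | algebraMap r =>
        have e1 : ((algebraMap ℚ F r : F) : Ω) = algebraMap ℚ Ω r := by simp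
        rw [e1]
        exact ℚ⟮(α : Ω)⟯.algebraMap_mem r
      | add x y _ _ h1 h2 => exact ℚ⟮(α : Ω)⟯.add_mem h1 h2
      | inv x _ h1 => exact ℚ⟮(α : Ω)⟯.inv_mem h1
      | mul x y _ _ h1 h2 => exact ℚ⟮(α : Ω)⟯.mul_mem h1 h2
    exact h3 _ h2
  have hαi : IsIntegral ℚ α := (Algebra.IsAlgebraic.isAlgebraic (R := ℚ) α).isIntegral
  have hex : ∃ d : ℕ, ∃ f : ℕ, 0 < f ∧ (minpoly (CF Ω f) α).natDegree = d := ⟨_, 1, one_pos, rfl⟩
  obtain ⟨f, hf, hfd⟩ := Nat.find_spec hex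
  have hdeg : ∀ m : ℕ, 0 < m → f ∣ m →
      (minpoly (CF Ω m) α).natDegree = (minpoly (CF Ω f) α).natDegree := by
    intro m hm hfm
    apply le_antisymm
    · exact deg_mono (CF_mono hfm) hαi
    · rw [hfd]
      exact Nat.find_min' hex ⟨m, hm, rfl⟩
  refine ⟨f * primorial n, Nat.mul_pos hf (primorial_pos n), ?_⟩
  intro a ha η hη hsum hmin i j
  choose N hN hN1 using hη
  have h1 := bounded hαi hf (Finset.prod_pos (s := univ) (fun i _ => hN i)) hdeg univ a η
    (fun i _ => hα _ (ha i)) (fun i _ => by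
      obtain ⟨k, hk⟩ := Finset.dvd_prod_of_mem N (mem_univ i)
      rw [hk, pow_mul, hN1 i, one_pow]) hsum (fun J _ hJ hJs => hmin J hJ hJs) i (mem_univ i) j
      (mem_univ j)
  rwa [card_univ, Fintype.card_fin] at h1

end

/-- The quotients of the terms of all relations without vanishing proper subsums, with coefficients in
a number field `F`, between radicals of given elements of `F` with bounded exponents are a finite set. -/
theorem fin2 {Ω : Type} [Field Ω] [CharZero Ω] [IsAlgClosed Ω] [Algebra.IsAlgebraic ℚ Ω]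
    (F : IntermediateField ℚ Ω) [FiniteDimensional ℚ F] (s : ℕ) (α : Fin s → Ω)
    (hαF : ∀ k, α k ∈ F) (hα : ∀ k, α k ≠ 0) (n B : ℕ) :
    Set.Finite {β : Ω | ∃ (c ρ : Fin n → Ω) (q : ℕ) (w : Fin n → Fin s → ℤ), (∀ i, c i ∈ F) ∧
      0 < q ∧ (∀ i k, |w i k| ≤ B * q) ∧ (∀ i, ρ i ^ q = ∏ k, α k ^ w i k) ∧
      ∑ i, c i * ρ i = 0 ∧
      (∀ J : Finset (Fin n), J.Nonempty → ∑ i ∈ J, c i * ρ i = 0 → J = Finset.univ) ∧
      ∃ i j, β = ρ i / ρ j} := by
  classical
  have hK : S_KUM := Pool.Agent.P8H52.KM.kum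
  have hA : S_ABE := Pool.Agent.P8H52.KM.abe
  have hN : S_NOR := Pool.Agent.P8H44.KM.nor
  -- the roots of unity in `F`
  obtain ⟨W, hW, hWF⟩ : ∃ W : ℕ, 0 < W ∧ ∀ z ∈ F, ∀ m : ℕ, 0 < m → z ^ m = 1 → z ^ W = 1 := by
    have h0 := hN Ω F 0 Fin.elim0 (fun k => k.elim0) 0
    obtain ⟨W, hW, h⟩ := fin_roots h0 (by
      rintro z ⟨-, q, hq, w, -, h⟩
      exact ⟨q, hq, by simpa using h⟩)
    refine ⟨W, hW, fun z hz m hm hzm => h z ⟨hz, m, hm, Fin.elim0, fun k => k.elim0, ?_⟩⟩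
    simpa using hzm
  have hG := hN Ω F s α (fun k => ⟨hαF k, hα k⟩) (2 * W * B)
  set G : Finset Ω := hG.toFinset with hGdef
  have hex : ∀ γ : Ω, ∃ d : Ω, d ^ W = γ := fun γ => IsAlgClosed.exists_pow_nat_eq γ hW
  choose δ hδ using hex
  -- the field of the new coefficients
  set F' : IntermediateField ℚ Ω := F ⊔ IntermediateField.adjoin ℚ (δ '' G) with hF'
  have hfd1 : FiniteDimensional ℚ (IntermediateField.adjoin ℚ (δ '' (G : Set Ω))) := by
    have : Finite ↥(δ '' (G : Set Ω)) := ((Finset.finite_toSet G).image δ).to_subtype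
    exact IntermediateField.finiteDimensional_adjoin
      (fun x _ => (Algebra.IsAlgebraic.isAlgebraic (R := ℚ) x).isIntegral)
  have hfd2 : FiniteDimensional ℚ F' := IntermediateField.finiteDimensional_sup _ _
  have hδF : ∀ γ ∈ G, δ γ ∈ F' := fun γ hγ =>
    (le_sup_right : IntermediateField.adjoin ℚ (δ '' (G : Set Ω)) ≤ F')
      (IntermediateField.subset_adjoin _ _ ⟨γ, hγ, rfl⟩)
  have hFF' : F ≤ F' := le_sup_left
  obtain ⟨M', hM'0, hMg⟩ := man2 F' n
  have hfin : ((fun p : (Ω × Ω) × Ω => δ p.1.1 / δ p.1.2 * p.2) ''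
      ↑((G ×ˢ G) ×ˢ (Polynomial.nthRootsFinset M' (1 : Ω)))).Finite :=
    Set.Finite.image _ (Finset.finite_toSet _)
  refine hfin.subset ?_
  rintro β ⟨c, ρ, q, w, hcF, hq, hw, hρ, hsum, hmin, i, j, rfl⟩
  have hρ0 : ∀ i, ρ i ≠ 0 := by
    intro i h0
    have h1 := hρ i
    rw [h0, zero_pow hq.ne'] at h1
    exact Finset.prod_ne_zero_iff.2 (fun k _ => zpow_ne_zero _ (hα k)) h1.symm
  have hρF : ∀ i, ρ i ^ q ∈ F := by
    intro i
    rw [hρ i]
    exact prod_mem fun k _ => zpow_mem (hαF k) _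
  set E : IntermediateField ℚ Ω := F ⊔ IntermediateField.adjoin ℚ {z : Ω | z ^ q = 1} with hE
  have hFE : F ≤ E := le_sup_left
  have hμE : ∀ z : Ω, z ^ q = 1 → z ∈ E := fun z hz =>
    (le_sup_right : IntermediateField.adjoin ℚ {z : Ω | z ^ q = 1} ≤ E)
      (IntermediateField.subset_adjoin _ _ hz)
  have hall : ∀ i, ρ i / ρ j ∈ E := by
    have h1 := hK Ω E q hq hμE n c ρ (fun i => hFE (hcF i)) (fun i => ⟨hρ0 i, hFE (hρF i)⟩) hsum j
      (Finset.univ.filter fun i => ρ i / ρ j ∈ E) (fun i => by simp)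
    have h2 := hmin _ ⟨j, by simp [hρ0 j, one_mem]⟩ h1
    intro i
    have h3 : i ∈ Finset.univ.filter fun i => ρ i / ρ j ∈ E := by rw [h2]; exact Finset.mem_univ _
    simpa using h3
  have hab : ∀ i, ∃ η : Ω, η ^ q = 1 ∧ (ρ i / ρ j) ^ W * η ∈ F := fun i =>
    hA Ω F W hW hWF q hq (ρ i / ρ j) (div_ne_zero (hρ0 i) (hρ0 j))
      (by rw [div_pow]; exact div_mem (hρF i) (hρF j)) (hall i)
  choose η hη1 hη2 using hab
  have hη0 : ∀ i, η i ≠ 0 := by
    intro i h0
    have := hη1 i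
    rw [h0, zero_pow hq.ne'] at this
    exact zero_ne_one this
  set γ : Fin n → Ω := fun i => (ρ i / ρ j) ^ W * η i with hγ
  have hγ0 : ∀ i, γ i ≠ 0 := fun i =>
    mul_ne_zero (pow_ne_zero _ (div_ne_zero (hρ0 i) (hρ0 j))) (hη0 i)
  have hγG : ∀ i, γ i ∈ G := by
    intro i
    rw [hGdef, hG.mem_toFinset]
    refine ⟨hη2 i, q, hq, fun k => (W : ℤ) * (w i k - w j k), fun k => ?_, ?_⟩
    · have h1 := hw i k
      have h2 := hw j k
      rw [abs_mul, abs_of_nonneg (by positivity : (0 : ℤ) ≤ (W : ℤ))]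
      have h3 : |w i k - w j k| ≤ 2 * (B * q) := by
        have := abs_sub (w i k) (w j k)
        linarith
      calc (W : ℤ) * |w i k - w j k| ≤ W * (2 * (B * q)) :=
            mul_le_mul_of_nonneg_left h3 (by positivity)
        _ = ((2 * W * B : ℕ) : ℤ) * q := by push_cast; ring
    · have h1 : γ i ^ q = (ρ i ^ q / ρ j ^ q) ^ W := by
        rw [hγ]
        simp only
        rw [mul_pow, hη1, mul_one, ← div_pow, ← pow_mul, ← pow_mul, mul_comm]
      rw [h1, hρ i, hρ j, ← Finset.prod_div_distrib, ← Finset.prod_pow]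
      refine Finset.prod_congr rfl fun k _ => ?_
      rw [← zpow_sub₀ (hα k), ← zpow_natCast, ← zpow_mul, mul_comm]
  have hδ0 : ∀ i, δ (γ i) ≠ 0 := by
    intro i h0
    have := hδ (γ i)
    rw [h0, zero_pow hW.ne'] at this
    exact hγ0 i this.symm
  set η' : Fin n → Ω := fun i => ρ i / ρ j / δ (γ i) with hη'
  have hη'1 : ∀ i, η' i ^ (W * q) = 1 := by
    intro i
    have h1 : η' i ^ W = (η i)⁻¹ := by
      rw [hη']
      simp only
      rw [div_pow, hδ, hγ]
      simp only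
      have h2 : (ρ i / ρ j) ^ W ≠ 0 := pow_ne_zero _ (div_ne_zero (hρ0 i) (hρ0 j))
      field_simp
    rw [pow_mul, h1, inv_pow, hη1, inv_one]
  have hterm : ∀ i, c i * δ (γ i) * η' i = c i * ρ i / ρ j := by
    intro i
    rw [hη']
    simp only
    have h2 := hδ0 i
    field_simp
  have hJ : ∀ J : Finset (Fin n), ∑ i ∈ J, c i * δ (γ i) * η' i = (∑ i ∈ J, c i * ρ i) / ρ j := by
    intro J
    rw [Finset.sum_div]
    exact Finset.sum_congr rfl fun i _ => hterm i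
  have hmain := hMg (fun i => c i * δ (γ i)) (fun i => mul_mem (hFF' (hcF i)) (hδF _ (hγG i)))
    η' (fun i => ⟨W * q, Nat.mul_pos hW hq, hη'1 i⟩)
    (by rw [hJ, hsum, zero_div])
    (fun J hJn h0 => hmin J hJn (by
      rw [hJ, div_eq_zero_iff] at h0
      exact h0.resolve_right (hρ0 j))) i j
  refine ⟨((γ i, γ j), η' i / η' j), ?_, ?_⟩
  · simp only [Finset.coe_product, Set.mem_prod, Finset.mem_coe]
    exact ⟨⟨hγG i, hγG j⟩, (Polynomial.mem_nthRootsFinset hM'0 _).2 hmain⟩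
  · simp only
    rw [hη']
    simp only
    have h1 := hδ0 i
    have h2 := hδ0 j
    have h3 := hρ0 j
    field_simp

end Pool.Agent.P8H10.KM
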