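import Pool.Agent.R347.LW.Ex2
import Pool.Agent.R347.LW.Dich

/-!
# Project KM: the analytic package (Liouville inequality)
-/

set_option autoImplicit false

open Filter Topology Complex Pool.Agent.R347.LW

namespace Pool.Agent.P8H10.KM

/-- **LIO** (about 200 lines). Let `exp (l k)` be algebraic, `c j` algebraic, and let the real numbers
`x j k` be rationally approximable (`RAppr q`, `Pool/Agent/R347/LW/Pow.lean`). If
`∑ c j * exp (∑ k, x j k * l k) = 0` then there are rational approximations, converging to the `x j k`,
for which the relation holds exactly.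

Proof. Take one `h` for all the `x j k` (maximum), and for given `κ` and all large `i` approximations
`u / v` of the `x j k` with `v ≤ tower h (q i)` and errors `≤ 1 / tower κ (q i)`; put them over the
common denominator `v` (the product of the denominators, `≤ tower (h + c) (q i)`); the numerators are
bounded by `C * v`. Then `z = ∑ c j * exp (∑ k, (u j k / v) * l k)` is an algebraic number whose degree
and height are bounded by `tower H (q i)`, where `H` does not depend on `κ`. So `z = 0` or
`|z| ≥ 1 / tower (H + 2) (q i)` (Liouville: `z` is a zero of a nonzero integral polynomial with bounded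
coefficients and a nonzero constant term). On the other hand `|z| ≤ C / tower κ (q i)`, since the
function is Lipschitz near `x`. For `κ` large `z = 0`. Letting `κ → ∞` gives the sequence.

Most of this is in the library `Pool/Agent/R347/LW`: `Appr.rpow` in `Pow.lean` contains the proof that
`exp ((u / v) * l)` is a zero of an integral polynomial of degree and coefficients bounded by a tower
(`common_field`, `pow_root`, `RB`), with the calculus `EL` of bounds by towers from `Tow.lean`; see also
`GRoot.lean`, `GRoot2.lean`, `QuantE.lean` (`poly_prod`), `Fld.lean`. Another way to the lower bound: in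
the number field `L = ℚ(c, exp l, exp (l / v), μ_v)` of degree at most `D v ^ (s + 1)` the product of the
conjugates of `N ^ (C v) * z` is an integer; all conjugates are bounded by `R ^ C`.-/
def S_LIO : Prop := ∀ q : ℕ → ℕ, (∀ i, 2 ≤ q i) → ∀ (s n : ℕ) (l : Fin s → ℂ),
  (∀ k, IsAlgebraic ℚ (exp (l k))) → ∀ x : Fin n → Fin s → ℝ, (∀ j k, RAppr q (x j k)) →
  ∀ c : Fin n → ℂ, (∀ j, IsAlgebraic ℚ (c j)) →
    ∑ j, c j * exp (∑ k, (x j k : ℂ) * l k) = 0 →
    ∃ (u : ℕ → Fin n → Fin s → ℤ) (v : ℕ → ℕ), (∀ m, 0 < v m) ∧
      (∀ j k, Tendsto (fun m => (u m j k : ℝ) / v m) atTop (𝓝 (x j k))) ∧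
      ∀ m, ∑ j, c j * exp (∑ k, (u m j k : ℂ) / v m * l k) = 0

end Pool.Agent.P8H10.KM
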