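import Pool.Agent.P8H10.KM.Rel
import Pool.Agent.P8H10.KM.StmL

/-!
# Project KM: algebraic independence
-/

set_option autoImplicit false

open Filter Topology Complex Finset Pool.Agent.R347.LW

namespace Pool.Agent.P8H10.KM

variable {q : ℕ → ℕ}

theorem rel_appr (hF : S_FIN) (hL : S_LIO) (hq : ∀ i, 2 ≤ q i) {s n : ℕ} (hn : 0 < n)
    (l : Fin s → ℂ) (hl : ∀ k, IsAlgebraic ℚ (exp (l k))) (x : Fin n → Fin s → ℝ)
    (hx : ∀ j k, RAppr q (x j k)) (c : Fin n → ℂ) (hc0 : ∀ j, c j ≠ 0)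
    (hc : ∀ j, IsAlgebraic ℚ (c j)) (h : ∑ j, c j * exp (∑ k, (x j k : ℂ) * l k) = 0) :
    ∃ i j, i ≠ j ∧ IsAlgebraic ℚ (exp (∑ k, ((x i k : ℂ) - x j k) * l k)) := by
  obtain ⟨u, v, hv, hlim, hrel⟩ := hL q hq s n l hl x hx c hc h
  exact rel hF hn l hl x c hc0 hc u v hv hlim hrel

theorem rappr_zero : RAppr q 0 := by
  have := RAppr.rat (q := q) 0
  simpa using this

theorem rappr_sum (hq : ∀ i, 2 ≤ q i) {ι : Type*} (J : Finset ι) (f : ι → ℝ)
    (h : ∀ i ∈ J, RAppr q (f i)) : RAppr q (∑ i ∈ J, f i) :=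
  sum_mem (S := UR hq) h

theorem rappr_nat_mul (hq : ∀ i, 2 ≤ q i) (m : ℕ) {x : ℝ} (h : RAppr q x) :
    RAppr q ((m : ℝ) * x) :=
  (UR hq).mul_mem (natCast_mem (UR hq) m) h

/-- **Algebraic independence.** -/
theorem alg_ind (hF : S_FIN) (hL : S_LIO) (hq : ∀ i, 2 ≤ q i) {n s : ℕ} (l : Fin s → ℂ)
    (hl : ∀ k, IsAlgebraic ℚ (exp (l k))) (x : Fin n → Fin s → ℝ) (hx : ∀ j k, RAppr q (x j k))
    (hind : ∀ m : Fin n → ℤ, m ≠ 0 →
      ¬ IsAlgebraic ℚ (exp (∑ j, (m j : ℂ) * ∑ k, (x j k : ℂ) * l k))) :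
    AlgebraicIndependent ℚ (fun j => exp (∑ k, (x j k : ℂ) * l k)) := by
  classical
  rw [algebraicIndependent_iff]
  intro P hP
  by_contra hP0
  have hne : P.support.Nonempty := MvPolynomial.support_nonempty.2 hP0
  rw [MvPolynomial.aeval_def, MvPolynomial.eval₂_eq'] at hP
  let e : Fin P.support.card ≃ P.support := P.support.equivFin.symm
  have hterm : ∀ d : Fin n →₀ ℕ, ∏ j, exp (∑ k, (x j k : ℂ) * l k) ^ d j =
      exp (∑ k, ((∑ j, (d j : ℝ) * x j k : ℝ) : ℂ) * l k) := by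
    intro d
    have h1 : ∑ k, ((∑ j, (d j : ℝ) * x j k : ℝ) : ℂ) * l k =
        ∑ j, (d j : ℂ) * ∑ k, (x j k : ℂ) * l k := by
      push_cast
      simp_rw [Finset.sum_mul, Finset.mul_sum]
      rw [Finset.sum_comm]
      refine Finset.sum_congr rfl fun j _ => Finset.sum_congr rfl fun k _ => ?_
      ring
    rw [h1, Complex.exp_sum]
    exact Finset.prod_congr rfl fun j _ => (Complex.exp_nat_mul _ _).symm
  have hrel : ∑ a, (algebraMap ℚ ℂ (P.coeff (e a))) *
      exp (∑ k, ((∑ j, (((e a : P.support) : Fin n →₀ ℕ) j : ℝ) * x j k : ℝ) : ℂ) * l k) = 0 := by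
    have h1 : ∑ a, (algebraMap ℚ ℂ (P.coeff (e a))) *
      exp (∑ k, ((∑ j, (((e a : P.support) : Fin n →₀ ℕ) j : ℝ) * x j k : ℝ) : ℂ) * l k) =
        ∑ d : P.support, (algebraMap ℚ ℂ (P.coeff d)) *
      exp (∑ k, ((∑ j, ((d : Fin n →₀ ℕ) j : ℝ) * x j k : ℝ) : ℂ) * l k) :=
      Equiv.sum_comp e (fun d : P.support => (algebraMap ℚ ℂ (P.coeff d)) *
        exp (∑ k, ((∑ j, ((d : Fin n →₀ ℕ) j : ℝ) * x j k : ℝ) : ℂ) * l k))
    have h2 := Finset.sum_coe_sort P.support (fun d : Fin n →₀ ℕ => algebraMap ℚ ℂ (P.coeff d) *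
        exp (∑ k, ((∑ j, (d j : ℝ) * x j k : ℝ) : ℂ) * l k))
    refine h1.trans (h2.trans (Eq.trans (Finset.sum_congr rfl fun d _ => ?_) hP))
    rw [hterm]
  obtain ⟨a, b, hab, halg⟩ := rel_appr hF hL hq hne.card_pos l hl
    (fun a k => ∑ j, (((e a : P.support) : Fin n →₀ ℕ) j : ℝ) * x j k)
    (fun a k => rappr_sum hq _ _ fun j _ => rappr_nat_mul hq _ (hx j k))
    (fun a => algebraMap ℚ ℂ (P.coeff (e a)))
    (fun a => by
      have h1 := MvPolynomial.mem_support_iff.1 (e a).2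
      exact (map_ne_zero _).2 h1)
    (fun a => isAlgebraic_algebraMap _) hrel
  refine hind (fun j => (((e a : P.support) : Fin n →₀ ℕ) j : ℤ) -
    (((e b : P.support) : Fin n →₀ ℕ) j : ℤ)) ?_ ?_
  · intro h0
    refine hab (e.injective (Subtype.ext ?_))
    ext j
    have := congrFun h0 j
    simp only [Pi.zero_apply] at this
    omega
  · have h1 : ∑ j, (((((e a : P.support) : Fin n →₀ ℕ) j : ℤ) -
        (((e b : P.support) : Fin n →₀ ℕ) j : ℤ) : ℤ) : ℂ) * ∑ k, (x j k : ℂ) * l k =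
        ∑ k, (((∑ j, (((e a : P.support) : Fin n →₀ ℕ) j : ℝ) * x j k : ℝ) : ℂ) -
          ((∑ j, (((e b : P.support) : Fin n →₀ ℕ) j : ℝ) * x j k : ℝ) : ℂ)) * l k := by
      push_cast
      simp_rw [← Finset.sum_sub_distrib, Finset.sum_mul, Finset.mul_sum]
      rw [Finset.sum_comm]
      refine Finset.sum_congr rfl fun j _ => Finset.sum_congr rfl fun k _ => ?_
      ring
    rw [h1]
    exact halg

/-- `t` is a combination of complex logarithms of algebraic numbers with rationally approximable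
coefficients. -/
def InM (q : ℕ → ℕ) (t : ℂ) : Prop := ∃ (s : ℕ) (x : Fin s → ℝ) (l : Fin s → ℂ),
  (∀ k, RAppr q (x k)) ∧ (∀ k, IsAlgebraic ℚ (exp (l k))) ∧ t = ∑ k, (x k : ℂ) * l k

/-- a common representation -/
theorem common {n : ℕ} (t : Fin n → ℂ) (ht : ∀ j, InM q (t j)) :
    ∃ (s : ℕ) (l : Fin s → ℂ) (x : Fin n → Fin s → ℝ), (∀ k, IsAlgebraic ℚ (exp (l k))) ∧
      (∀ j k, RAppr q (x j k)) ∧ ∀ j, t j = ∑ k, (x j k : ℂ) * l k := by
  classical
  choose s x l hx hl ht using ht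
  let I := (j : Fin n) × Fin (s j)
  let e : Fin (Fintype.card I) ≃ I := (Fintype.equivFin I).symm
  refine ⟨Fintype.card I, fun a => l (e a).1 (e a).2,
    fun j a => if (e a).1 = j then x (e a).1 (e a).2 else 0, fun a => hl _ _, fun j a => ?_,
    fun j => ?_⟩
  · by_cases h : (e a).1 = j
    · simp only [h, if_true]
      have := hx (e a).1 (e a).2
      exact this
    · simp only [h, if_false]
      exact rappr_zero
  · rw [ht j]
    have h1 : ∑ a, (((if (e a).1 = j then x (e a).1 (e a).2 else 0 : ℝ) : ℂ)) *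
        l (e a).1 (e a).2 = ∑ p : I, (((if p.1 = j then x p.1 p.2 else 0 : ℝ) : ℂ)) * l p.1 p.2 :=
      Equiv.sum_comp e (fun p : I => (((if p.1 = j then x p.1 p.2 else 0 : ℝ) : ℂ)) * l p.1 p.2)
    rw [h1, Fintype.sum_sigma]
    rw [Finset.sum_eq_single j]
    · simp
    · intro b _ hb
      simp [hb]
    · simp

/-- the complex logarithms of the algebraic numbers -/
noncomputable def Lam : Submodule ℚ ℂ where
  carrier := {l | IsAlgebraic ℚ (exp l)}
  add_mem' := by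
    intro a b ha hb
    change IsAlgebraic ℚ (exp (a + b))
    rw [Complex.exp_add]
    exact IsAlgebraic.mul ha hb
  zero_mem' := by
    change IsAlgebraic ℚ (exp 0)
    rw [Complex.exp_zero]
    exact isAlgebraic_one
  smul_mem' := by
    intro r a ha
    change IsAlgebraic ℚ (exp (r • a))
    have h1 := exp_alg ha r.num r.den_pos
    have h2 : r • a = (r.num : ℂ) / r.den * a := by
      rw [Rat.smul_def]
      congr 1
      exact_mod_cast (Rat.num_div_den r).symm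
    rw [h2]
    exact h1

theorem mem_Lam {l : ℂ} : l ∈ Lam ↔ IsAlgebraic ℚ (exp l) := Iff.rfl

theorem alg_ind_mod (hF : S_FIN) (hL : S_LIO) (hq : ∀ i, 2 ≤ q i) {n : ℕ} (t : Fin n → ℂ)
    (ht : ∀ j, InM q (t j)) (hli : LinearIndependent ℚ (fun j => Lam.mkQ (t j))) :
    AlgebraicIndependent ℚ (fun j => exp (t j)) := by
  obtain ⟨s, l, x, hl, hx, h⟩ := common t ht
  have h1 := alg_ind hF hL hq l hl x hx (fun m hm halg => hm ?_)
  · refine (funext fun j => ?_ : (fun j => exp (t j)) = _) ▸ h1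
    rw [h j]
  · have h2 : ∑ j, (m j : ℂ) * ∑ k, (x j k : ℂ) * l k = ∑ j, (m j : ℚ) • t j := by
      refine Finset.sum_congr rfl fun j _ => ?_
      rw [← h j, Rat.smul_def]
      push_cast
      rfl
    rw [h2, ← mem_Lam] at halg
    have h3 : ∑ j, (m j : ℚ) • Lam.mkQ (t j) = 0 := by
      have h4 := (Submodule.Quotient.mk_eq_zero Lam).2 halg
      rw [← Submodule.mkQ_apply, map_sum] at h4
      simpa using h4
    have h5 := Fintype.linearIndependent_iff.1 hli _ h3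
    funext j
    exact_mod_cast h5 j

end Pool.Agent.P8H10.KM
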