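import Pool.Agent.P8H10.KM.StmL

/-!
# Project KM: the analytic package with approximable coefficients
-/

set_option autoImplicit false

open Filter Topology Complex Pool.Agent.R347.LW

namespace Pool.Agent.P8H10.KM

/-- **LIO2** (the version which is used; same proof as LIO, with coefficients which are replaced by
rational approximations too). -/
def S_LIO2 : Prop := ∀ q : ℕ → ℕ, (∀ i, 2 ≤ q i) → ∀ (s n : ℕ) (l : Fin s → ℂ),
  (∀ k, IsAlgebraic ℚ (exp (l k))) → ∀ x : Fin n → Fin s → ℝ, (∀ j k, RAppr q (x j k)) →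
  ∀ y : Fin n → ℝ, (∀ j, RAppr q (y j)) →
    ∑ j, (y j : ℂ) * exp (∑ k, (x j k : ℂ) * l k) = 0 →
    ∃ (u : ℕ → Fin n → Fin s → ℤ) (w : ℕ → Fin n → ℤ) (v : ℕ → ℕ), (∀ m, 0 < v m) ∧
      (∀ j k, Tendsto (fun m => (u m j k : ℝ) / v m) atTop (𝓝 (x j k))) ∧
      (∀ j, Tendsto (fun m => (w m j : ℝ) / v m) atTop (𝓝 (y j))) ∧
      ∀ m, ∑ j, (w m j : ℂ) / v m * exp (∑ k, (u m j k : ℂ) / v m * l k) = 0

end Pool.Agent.P8H10.KM
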