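import Pool.Agent.P8H10.KM.Ind

/-!
# Project KM: transcendence degrees
-/

set_option autoImplicit false

open Filter Topology Complex Finset Pool.Agent.R347.LW

namespace Pool.Agent.P8H10.KM

variable {q : ℕ → ℕ}

/-- the dimension of the space generated by the `t j` modulo the logarithms of algebraic numbers -/
noncomputable def rk {n : ℕ} (t : Fin n → ℂ) : ℕ :=
  Module.finrank ℚ ↥(Submodule.span ℚ (Set.range fun j => Lam.mkQ (t j)))

theorem rk_of_li {n : ℕ} {t : Fin n → ℂ} (h : LinearIndependent ℚ (fun j => Lam.mkQ (t j))) :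
    rk t = n := by
  rw [rk, finrank_span_eq_card h, Fintype.card_fin]

/-- a basis -/
theorem exists_basis {n : ℕ} (t : Fin n → ℂ) : ∃ a : Fin (rk t) → Fin n,
    LinearIndependent ℚ (fun i => Lam.mkQ (t (a i))) ∧
    ∀ j, Lam.mkQ (t j) ∈ Submodule.span ℚ (Set.range fun i => Lam.mkQ (t (a i))) := by
  classical
  obtain ⟨κ, a, ha, hspan, hli⟩ := exists_linearIndependent' ℚ (fun j => Lam.mkQ (t j))
  have hfin : Finite κ := Finite.of_injective a ha
  have := Fintype.ofFinite κ
  have hcard : Fintype.card κ = rk t := by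
    rw [rk, ← hspan, finrank_span_eq_card hli]
  let e : Fin (rk t) ≃ κ := (Fintype.equivFinOfCardEq hcard).symm
  refine ⟨fun i => a (e i), ?_, fun j => ?_⟩
  · exact hli.comp e e.injective
  · have h1 : (Set.range fun i => Lam.mkQ (t (a (e i)))) =
        Set.range ((fun j => Lam.mkQ (t j)) ∘ a) :=
      e.surjective.range_comp ((fun j => Lam.mkQ (t j)) ∘ a)
    rw [h1, hspan]
    exact Submodule.subset_span ⟨j, rfl⟩

/-- lower bound of the transcendence degree -/
theorem le_trdeg {F : IntermediateField ℚ ℂ} {ι : Type} (y : ι → ℂ) (hF : ∀ i, y i ∈ F)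
    (hy : AlgebraicIndependent ℚ y) : Cardinal.mk ι ≤ Algebra.trdeg ℚ F := by
  have h1 : AlgebraicIndependent ℚ (fun i => (⟨y i, hF i⟩ : F)) :=
    AlgebraicIndependent.of_comp F.val hy
  exact h1.cardinalMk_le_trdeg

/-- `α` is algebraic over the field generated by the `exp (t (a i))` -/
theorem alg_over {n m : ℕ} (t : Fin n → ℂ) (a : Fin m → Fin n) (j : Fin n)
    (h : Lam.mkQ (t j) ∈ Submodule.span ℚ (Set.range fun i => Lam.mkQ (t (a i)))) :
    IsAlgebraic (IntermediateField.adjoin ℚ (Set.range fun i => exp (t (a i)))) (exp (t j)) := by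
  set F := IntermediateField.adjoin ℚ (Set.range fun i => exp (t (a i))) with hF
  obtain ⟨c, hc⟩ := (Submodule.mem_span_range_iff_exists_fun ℚ).1 h
  have h1 : t j - ∑ i, c i • t (a i) ∈ Lam := by
    rw [← Submodule.Quotient.mk_eq_zero, ← Submodule.mkQ_apply, map_sub, map_sum, sub_eq_zero, ← hc]
    exact Finset.sum_congr rfl fun i _ => (map_smul _ _ _).symm
  have h2 : IsAlgebraic F (exp (t j - ∑ i, c i • t (a i))) :=
    (mem_Lam.1 h1).extendScalars (algebraMap ℚ F).injective
  have h3 : IsAlgebraic F (exp (∑ i, c i • t (a i))) := by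
    rw [Complex.exp_sum]
    refine Finset.prod_induction _ (IsAlgebraic F) (fun x y hx hy => hx.mul hy) isAlgebraic_one
      fun i _ => ?_
    refine IsAlgebraic.of_pow (c i).den_pos ?_
    have h4 : exp (c i • t (a i)) ^ (c i).den = exp (t (a i)) ^ (c i).num := by
      rw [← Complex.exp_nat_mul, ← Complex.exp_int_mul]
      congr 1
      rw [Rat.smul_def, ← mul_assoc]
      congr 1
      exact_mod_cast Rat.den_mul_eq_num (c i)
    rw [h4]
    have h5 : exp (t (a i)) ^ (c i).num ∈ F :=
      zpow_mem (IntermediateField.subset_adjoin ℚ (Set.range fun i => exp (t (a i)))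
        (Set.mem_range_self i)) _
    exact isAlgebraic_algebraMap (A := ℂ) (⟨exp (t (a i)) ^ (c i).num, h5⟩ : ↥F)
  have h6 := h2.mul h3
  rw [← Complex.exp_add, sub_add_cancel] at h6
  exact h6

/-- upper bound of the transcendence degree -/
theorem trdeg_le {n m : ℕ} (t : Fin n → ℂ) (a : Fin m → Fin n)
    (h : ∀ j, Lam.mkQ (t j) ∈ Submodule.span ℚ (Set.range fun i => Lam.mkQ (t (a i)))) :
    Algebra.trdeg ℚ (IntermediateField.adjoin ℚ (Set.range fun j => exp (t j))) ≤ m := by
  set A := IntermediateField.adjoin ℚ (Set.range fun j => exp (t j)) with hA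
  set F := IntermediateField.adjoin ℚ (Set.range fun i => exp (t (a i))) with hF
  have hFA : F ≤ A := by
    rw [hF, IntermediateField.adjoin_le_iff]
    rintro _ ⟨i, rfl⟩
    exact IntermediateField.subset_adjoin _ _ ⟨a i, rfl⟩
  -- the elements of `A` are algebraic over `F`
  have hAF : ∀ z ∈ A, IsAlgebraic F z := by
    have h1 : A ≤ (algebraicClosure F ℂ).restrictScalars ℚ := by
      rw [hA, IntermediateField.adjoin_le_iff]
      rintro _ ⟨j, rfl⟩
      exact mem_algebraicClosure_iff.2 (alg_over t a j (h j))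
    intro z hz
    exact mem_algebraicClosure_iff.1 (h1 hz)
  let y : Fin m → A := fun i => ⟨exp (t (a i)), IntermediateField.subset_adjoin _ _ ⟨a i, rfl⟩⟩
  have halg : Algebra.IsAlgebraic (Algebra.adjoin ℚ (Set.range y)) A := by
    refine ⟨fun z => ?_⟩
    have h2 : IsAlgebraic (Algebra.adjoin ℚ (Set.range fun i => exp (t (a i)))) (z : ℂ) := by
      have h3 := hAF z z.2
      rwa [hF, IntermediateField.isAlgebraic_adjoin_iff] at h3
    let f : A →ₐ[ℚ] ℂ := A.val
    have hf : Function.Injective f := Subtype.val_injective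
    have h3 : (Algebra.adjoin ℚ (Set.range y)).map f =
        Algebra.adjoin ℚ (Set.range fun i => exp (t (a i))) := by
      rw [AlgHom.map_adjoin, ← Set.range_comp]
      rfl
    rw [← h3] at h2
    let g := (Algebra.adjoin ℚ (Set.range y)).equivMapOfInjective f hf
    exact (isAlgebraic_ringHom_iff_of_comp_eq g f hf (by ext; rfl) (a := z)).1 h2
  have h1 := Algebra.IsAlgebraic.trdeg_le_cardinalMk ℚ (Set.range y)
  refine h1.trans ?_
  have := Cardinal.mk_range_le (f := y)
  simpa using this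

/-- **The transcendence degree of the field generated by the values.** -/
theorem trdeg_exp (hF : S_FIN) (hL : S_LIO) (hq : ∀ i, 2 ≤ q i) {n : ℕ} (t : Fin n → ℂ)
    (ht : ∀ j, InM q (t j)) :
    Algebra.trdeg ℚ (IntermediateField.adjoin ℚ (Set.range fun j => exp (t j))) = rk t := by
  obtain ⟨a, hli, hsp⟩ := exists_basis t
  refine le_antisymm (trdeg_le t a hsp) ?_
  have h1 := alg_ind_mod hF hL hq (fun i => t (a i)) (fun i => ht (a i)) hli
  have h2 := le_trdeg (F := IntermediateField.adjoin ℚ (Set.range fun j => exp (t j))) _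
    (fun i => IntermediateField.subset_adjoin _ _ ⟨a i, rfl⟩) h1
  simpa using h2

theorem rappr_mul_exp (hq : ∀ i, 2 ≤ q i) {x : ℝ} {l : ℂ} (hx : RAppr q x)
    (hl : IsAlgebraic ℚ (exp l)) : exp ((x : ℂ) * l) ∈ UK hq := by
  refine Appr.rpow hq ?_ hx
  have := UK_closed hq
  obtain ⟨P, hP, h⟩ := (IsFractionRing.isAlgebraic_iff ℤ ℚ ℂ).2 hl
  exact Appr.ofAlg hq P hP h

theorem exp_mem (hq : ∀ i, 2 ≤ q i) {t : ℂ} (ht : InM q t) : exp t ∈ UK hq := by
  obtain ⟨s, x, l, hx, hl, rfl⟩ := ht
  rw [Complex.exp_sum]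
  exact prod_mem fun k _ => rappr_mul_exp hq (hx k) (hl k)

/-- **The transcendence degree of the field of periods.** -/
theorem trdeg_periods (hF : S_FIN) (hL : S_LIO) (hq : ∀ i, 2 ≤ q i) {n : ℕ} (t : Fin n → ℂ)
    (ht : ∀ j, InM q (t j)) :
    (rk t : Cardinal) + 1 ≤ Algebra.trdeg ℚ (IntermediateField.adjoin ℚ
      ({2 * (Real.pi : ℂ) * I} ∪ Set.range t ∪ Set.range fun j => exp (t j))) := by
  obtain ⟨a, hli, hsp⟩ := exists_basis t
  have h1 := alg_ind_mod hF hL hq (fun i => t (a i)) (fun i => ht (a i)) hli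
  have hpi : 2 * (Real.pi : ℂ) * I ∉ UK hq := by
    intro h
    have hI : I ∈ UK hq := by
      refine Appr.ofAlg hq (Polynomial.X ^ 2 + 1) ?_ ?_
      · intro h0
        have h1 := congrArg (fun P : Polynomial ℤ => P.eval 0) h0
        simp at h1
      · simp
    have h2 : (Real.pi : ℂ) = 2 * (Real.pi : ℂ) * I * ((2 : ℂ) * I)⁻¹ := by
      have := Complex.I_ne_zero
      field_simp
    have h3 : (Real.pi : ℂ) ∈ UK hq := by
      rw [h2]
      exact mul_mem h (inv_mem (mul_mem (ofNat_mem _ 2) hI))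
    exact pi_notMem hq h3
  have htr : Transcendental (UK hq) (2 * (Real.pi : ℂ) * I) := by
    intro halg
    have := UK_closed hq
    obtain ⟨t, ht⟩ := minpoly.mem_range_of_degree_eq_one (UK hq) _
      (IsAlgClosed.degree_eq_one_of_irreducible (UK hq) (minpoly.irreducible halg.isIntegral))
    exact hpi (ht ▸ t.2)
  have h2 := (h1.option_iff_transcendental (2 * (Real.pi : ℂ) * I)).2 (fun halg => htr (by
    refine IsAlgebraic.tower_top_of_subalgebra_le (B := (UK hq).toSubalgebra) ?_ halg |> fun h => h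
    rw [Algebra.adjoin_le_iff]
    rintro _ ⟨i, rfl⟩
    exact exp_mem hq (ht _)))
  have h3 := le_trdeg (F := IntermediateField.adjoin ℚ
      ({2 * (Real.pi : ℂ) * I} ∪ Set.range t ∪ Set.range fun j => exp (t j))) _ (fun o => by
    rcases o with _ | i
    · exact IntermediateField.subset_adjoin _ _ (Or.inl (Or.inl rfl))
    · exact IntermediateField.subset_adjoin _ _ (Or.inr ⟨a i, rfl⟩)) h2
  simpa using h3

end Pool.Agent.P8H10.KM
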