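import Pool.Agent.P8H10.KM.Rel2
import Pool.Agent.P8H10.KM.StmL2
import Pool.Agent.P8H10.KM.Trd

/-!
# Project KM: algebraic independence over the field of rationally approximable numbers
-/

set_option autoImplicit false

open Filter Topology Complex Finset Pool.Agent.R347.LW

namespace Pool.Agent.P8H10.KM

variable {q : ℕ → ℕ}

/-- the field of the rationally approximable numbers, as a subfield of `ℂ` -/
noncomputable def RC (hq : ∀ i, 2 ≤ q i) : IntermediateField ℚ ℂ :=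
  (UR hq).map (Complex.ofRealAm.restrictScalars ℚ)

theorem mem_RC (hq : ∀ i, 2 ≤ q i) {z : ℂ} : z ∈ RC hq ↔ ∃ x : ℝ, RAppr q x ∧ z = x := by
  rw [RC, IntermediateField.mem_map]
  constructor
  · rintro ⟨x, hx, rfl⟩
    exact ⟨x, hx, rfl⟩
  · rintro ⟨x, hx, rfl⟩
    exact ⟨x, hx, rfl⟩

theorem RC_le (hq : ∀ i, 2 ≤ q i) : RC hq ≤ UK hq := by
  intro z hz
  obtain ⟨x, hx, rfl⟩ := (mem_RC hq).1 hz
  exact hx.appr hq

/-- **Algebraic independence over the field of rationally approximable numbers.** -/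
theorem alg_indR (hL : S_LIO2) (hq : ∀ i, 2 ≤ q i) {n s : ℕ} (l : Fin s → ℂ)
    (hl : ∀ k, IsAlgebraic ℚ (exp (l k))) (x : Fin n → Fin s → ℝ) (hx : ∀ j k, RAppr q (x j k))
    (hind : ∀ m : Fin n → ℤ, m ≠ 0 →
      ¬ IsAlgebraic ℚ (exp (∑ j, (m j : ℂ) * ∑ k, (x j k : ℂ) * l k))) :
    AlgebraicIndependent (RC hq) (fun j => exp (∑ k, (x j k : ℂ) * l k)) := by
  classical
  rw [algebraicIndependent_iff]
  intro P hP
  by_contra hP0
  have hne : P.support.Nonempty := MvPolynomial.support_nonempty.2 hP0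
  rw [MvPolynomial.aeval_def, MvPolynomial.eval₂_eq'] at hP
  let e : Fin P.support.card ≃ P.support := P.support.equivFin.symm
  -- the coefficients
  have hcoef : ∀ d : P.support, ∃ y : ℝ, RAppr q y ∧
      ((P.coeff (d : Fin n →₀ ℕ) : RC hq) : ℂ) = y := fun d => (mem_RC hq).1 (P.coeff _).2
  choose y hy1 hy2 using hcoef
  have hy0 : ∀ d, y d ≠ 0 := by
    intro d h0
    have h1 := MvPolynomial.mem_support_iff.1 d.2
    refine h1 (Subtype.ext ?_)
    rw [hy2 d, h0]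
    simp
  have hterm : ∀ d : Fin n →₀ ℕ, ∏ j, exp (∑ k, (x j k : ℂ) * l k) ^ d j =
      exp (∑ k, ((∑ j, (d j : ℝ) * x j k : ℝ) : ℂ) * l k) := by
    intro d
    have h1 : ∑ k, ((∑ j, (d j : ℝ) * x j k : ℝ) : ℂ) * l k =
        ∑ j, (d j : ℂ) * ∑ k, (x j k : ℂ) * l k := by
      push_cast
      simp_rw [Finset.sum_mul, Finset.mul_sum]
      rw [Finset.sum_comm]
      refine Finset.sum_congr rfl fun j _ => Finset.sum_congr rfl fun k _ => ?_
      ring
    rw [h1, Complex.exp_sum]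
    exact Finset.prod_congr rfl fun j _ => (Complex.exp_nat_mul _ _).symm
  have hrel : ∑ a, (y (e a) : ℂ) *
      exp (∑ k, ((∑ j, (((e a : P.support) : Fin n →₀ ℕ) j : ℝ) * x j k : ℝ) : ℂ) * l k) = 0 := by
    have h1 : ∑ a, (y (e a) : ℂ) *
      exp (∑ k, ((∑ j, (((e a : P.support) : Fin n →₀ ℕ) j : ℝ) * x j k : ℝ) : ℂ) * l k) =
        ∑ d : P.support, (y d : ℂ) *
      exp (∑ k, ((∑ j, ((d : Fin n →₀ ℕ) j : ℝ) * x j k : ℝ) : ℂ) * l k) :=
      Equiv.sum_comp e (fun d : P.support => (y d : ℂ) *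
        exp (∑ k, ((∑ j, ((d : Fin n →₀ ℕ) j : ℝ) * x j k : ℝ) : ℂ) * l k))
    have h2 : ∑ d : P.support, (y d : ℂ) *
      exp (∑ k, ((∑ j, ((d : Fin n →₀ ℕ) j : ℝ) * x j k : ℝ) : ℂ) * l k) =
        ∑ d : P.support, ((P.coeff (d : Fin n →₀ ℕ) : RC hq) : ℂ) *
      exp (∑ k, ((∑ j, ((d : Fin n →₀ ℕ) j : ℝ) * x j k : ℝ) : ℂ) * l k) :=
      Finset.sum_congr rfl fun d _ => by rw [hy2 d]
    have h3 := Finset.sum_coe_sort P.support
      (fun d : Fin n →₀ ℕ => ((P.coeff (d : Fin n →₀ ℕ) : RC hq) : ℂ) *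
        exp (∑ k, ((∑ j, (d j : ℝ) * x j k : ℝ) : ℂ) * l k))
    refine h1.trans (h2.trans (h3.trans (Eq.trans (Finset.sum_congr rfl fun d _ => ?_) hP)))
    rw [hterm]
    rfl
  obtain ⟨u, w, v, hv, hlim, hlimy, hrel'⟩ := hL q hq s P.support.card l hl
    (fun a k => ∑ j, (((e a : P.support) : Fin n →₀ ℕ) j : ℝ) * x j k)
    (fun a k => rappr_sum hq _ _ fun j _ => rappr_nat_mul hq _ (hx j k))
    (fun a => y (e a)) (fun a => hy1 (e a)) hrel
  obtain ⟨a, b, hab, halg⟩ := rel2 hne.card_pos l hl _ (fun a => y (e a)) (fun a => hy0 (e a))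
    u w v hv hlim hlimy hrel'
  refine hind (fun j => (((e a : P.support) : Fin n →₀ ℕ) j : ℤ) -
    (((e b : P.support) : Fin n →₀ ℕ) j : ℤ)) ?_ ?_
  · intro h0
    refine hab (e.injective (Subtype.ext ?_))
    ext j
    have := congrFun h0 j
    simp only [Pi.zero_apply] at this
    omega
  · have h1 : ∑ j, (((((e a : P.support) : Fin n →₀ ℕ) j : ℤ) -
        (((e b : P.support) : Fin n →₀ ℕ) j : ℤ) : ℤ) : ℂ) * ∑ k, (x j k : ℂ) * l k =
        ∑ k, (((∑ j, (((e a : P.support) : Fin n →₀ ℕ) j : ℝ) * x j k : ℝ) : ℂ) -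
          ((∑ j, (((e b : P.support) : Fin n →₀ ℕ) j : ℝ) * x j k : ℝ) : ℂ)) * l k := by
      push_cast
      simp_rw [← Finset.sum_sub_distrib, Finset.sum_mul, Finset.mul_sum]
      rw [Finset.sum_comm]
      refine Finset.sum_congr rfl fun j _ => Finset.sum_congr rfl fun k _ => ?_
      ring
    rw [h1]
    exact halg

theorem alg_ind_modR (hL : S_LIO2) (hq : ∀ i, 2 ≤ q i) {n : ℕ} (t : Fin n → ℂ)
    (ht : ∀ j, InM q (t j)) (hli : LinearIndependent ℚ (fun j => Lam.mkQ (t j))) :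
    AlgebraicIndependent (RC hq) (fun j => exp (t j)) := by
  obtain ⟨s, l, x, hl, hx, h⟩ := common t ht
  have h1 := alg_indR hL hq l hl x hx (fun m hm halg => hm ?_)
  · refine (funext fun j => ?_ : (fun j => exp (t j)) = _) ▸ h1
    rw [h j]
  · have h2 : ∑ j, (m j : ℂ) * ∑ k, (x j k : ℂ) * l k = ∑ j, (m j : ℚ) • t j := by
      refine Finset.sum_congr rfl fun j _ => ?_
      rw [← h j, Rat.smul_def]
      push_cast
      rfl
    rw [h2, ← mem_Lam] at halg
    have h3 : ∑ j, (m j : ℚ) • Lam.mkQ (t j) = 0 := by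
      have h4 := (Submodule.Quotient.mk_eq_zero Lam).2 halg
      rw [← Submodule.mkQ_apply, map_sum] at h4
      simpa using h4
    have h5 := Fintype.linearIndependent_iff.1 hli _ h3
    funext j
    exact_mod_cast h5 j

end Pool.Agent.P8H10.KM
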