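import Pool.Agent.P8H10.KM.Crit

/-!
# Project KM: exponentials of elements of `K + R Λ`
-/

set_option autoImplicit false

open Filter Topology Complex Finset Pool.Agent.R347.LW

namespace Pool.Agent.P8H10.KM

variable {q : ℕ → ℕ}

theorem inM_iff (hq : ∀ i, 2 ≤ q i) {z : ℂ} :
    InM q z ↔ z ∈ Submodule.span (RC hq) {l : ℂ | IsAlgebraic ℚ (exp l)} := by
  refine ⟨?_, inM_of_span hq⟩
  rintro ⟨s, x, l, hx, hl, rfl⟩
  refine sum_mem fun k _ => ?_
  have h1 : (x k : ℂ) * l k = (⟨(x k : ℂ), (mem_RC hq).2 ⟨x k, hx k, rfl⟩⟩ : RC hq) • l k := rfl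
  rw [h1]
  exact Submodule.smul_mem _ _ (Submodule.subset_span (hl k))

theorem alg_ind_modR' (hL : S_LIO2) (hq : ∀ i, 2 ≤ q i) {ι : Type} [Fintype ι] (t : ι → ℂ)
    (ht : ∀ j, InM q (t j)) (hli : LinearIndependent ℚ (fun j => Lam.mkQ (t j))) :
    AlgebraicIndependent (RC hq) (fun j => exp (t j)) := by
  let e : Fin (Fintype.card ι) ≃ ι := (Fintype.equivFin ι).symm
  have h1 := alg_ind_modR hL hq (fun i => t (e i)) (fun i => ht _) (hli.comp e e.injective)
  exact (algebraicIndependent_equiv e).1 h1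

/-- multiplication by nonzero constants -/
theorem alg_ind_scale {K : IntermediateField ℚ ℂ} {ι : Type} (y : ι → ℂ) (c : ι → ℂ)
    (hc : ∀ i, c i ∈ K ∧ c i ≠ 0) (hy : AlgebraicIndependent K y) :
    AlgebraicIndependent K (fun i => c i * y i) := by
  let c' : ι → K := fun i => ⟨c i, (hc i).1⟩
  have hc' : ∀ i, c' i ≠ 0 := fun i h => (hc i).2 (congrArg Subtype.val h)
  let φ : MvPolynomial ι K →ₐ[K] MvPolynomial ι K :=
    MvPolynomial.aeval fun i => MvPolynomial.C (c' i) * MvPolynomial.X i
  let ψ : MvPolynomial ι K →ₐ[K] MvPolynomial ι K :=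
    MvPolynomial.aeval fun i => MvPolynomial.C (c' i)⁻¹ * MvPolynomial.X i
  have hψφ : ψ.comp φ = AlgHom.id K _ := by
    refine MvPolynomial.algHom_ext fun i => ?_
    simp only [φ, ψ, AlgHom.comp_apply, MvPolynomial.aeval_X, map_mul, AlgHom.id_apply]
    have h1 : MvPolynomial.aeval (fun i => MvPolynomial.C (c' i)⁻¹ * MvPolynomial.X i)
        (MvPolynomial.C (c' i) : MvPolynomial ι K) = (MvPolynomial.C (c' i) : MvPolynomial ι K) := by
      rw [← MvPolynomial.algebraMap_eq, AlgHom.commutes]
    rw [h1, ← mul_assoc, ← MvPolynomial.C_mul, mul_inv_cancel₀ (hc' i), MvPolynomial.C_1, one_mul]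
  have hφ : Function.Injective φ := by
    intro P Q h
    have := congrArg ψ h
    rw [← AlgHom.comp_apply, ← AlgHom.comp_apply, hψφ] at this
    exact this
  have hcomp : (MvPolynomial.aeval y : MvPolynomial ι K →ₐ[K] ℂ).comp φ =
      MvPolynomial.aeval fun i => c i * y i := by
    refine MvPolynomial.algHom_ext fun i => ?_
    simp only [φ, AlgHom.comp_apply, MvPolynomial.aeval_X, map_mul]
    congr 1
    rw [← MvPolynomial.algebraMap_eq, AlgHom.commutes]
    rfl
  have h1 : Function.Injective (MvPolynomial.aeval fun i => c i * y i :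
      MvPolynomial ι K →ₐ[K] ℂ) := by
    rw [← hcomp]
    have h0 : Function.Injective (MvPolynomial.aeval y : MvPolynomial ι K →ₐ[K] ℂ) := hy
    exact h0.comp hφ
  exact h1

theorem algIndU' (hq : ∀ i, 2 ≤ q i) {ι : Type} [Fintype ι] (z : ι → ℂ) (hz : ∀ i, z i ∈ UK hq)
    (hli : LinearIndependent ℚ z) : AlgebraicIndependent (UK hq) (fun i => exp (z i)) := by
  let e : Fin (Fintype.card ι) ≃ ι := (Fintype.equivFin ι).symm
  have h1 := algIndU hq _ (fun i => (⟨z (e i), hz _⟩ : UK hq)) (by
    rw [Fintype.linearIndependent_iff]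
    intro c hc
    have h2 : ∑ i, c i • z (e i) = 0 := by
      have h3 := congrArg (UK hq).val hc
      rw [map_sum, map_zero] at h3
      rw [← h3]
      refine Finset.sum_congr rfl fun i _ => ?_
      rw [Algebra.smul_def, Algebra.smul_def, map_mul]
      rfl
    exact Fintype.linearIndependent_iff.1 (hli.comp e e.injective) c h2)
  exact (algebraicIndependent_equiv e).1 h1

/-- **The Schanuel inequality** for elements of `K + R Λ` which are independent modulo `Λ`. -/
theorem schanuel_KM (hL : S_LIO2) (hq : ∀ i, 2 ≤ q i) {n : ℕ} (w z t : Fin n → ℂ)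
    (hw : ∀ j, w j = z j + t j) (hz : ∀ j, z j ∈ UK hq) (ht : ∀ j, InM q (t j))
    (hli : LinearIndependent ℚ (fun j => Lam.mkQ (w j))) (F : IntermediateField (RC hq) ℂ)
    (hmem : ∀ j, exp (w j) ∈ F) :
    (n : Cardinal) ≤ Algebra.trdeg (RC hq) F := by
  classical
  obtain ⟨κ, a, ha, hspan, hlz⟩ := exists_linearIndependent' ℚ z
  have hfin : Finite κ := Finite.of_injective a ha
  have := Fintype.ofFinite κ
  let J := {j : Fin n // j ∉ Set.range a}
  -- the relations
  have hrel : ∀ j, ∃ (D : ℕ) (b : κ → ℤ), 0 < D ∧ (D : ℂ) * z j = ∑ i, (b i : ℂ) * z (a i) := by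
    intro j
    have h1 : z j ∈ Submodule.span ℚ (Set.range (z ∘ a)) := by
      rw [hspan]
      exact Submodule.subset_span ⟨j, rfl⟩
    obtain ⟨c, hc⟩ := (Submodule.mem_span_range_iff_exists_fun ℚ).1 h1
    have hdvd : ∀ i, ∃ b : ℤ, (b : ℚ) = (∏ i, (c i).den : ℕ) * c i := by
      intro i
      obtain ⟨b, hb⟩ := Finset.dvd_prod_of_mem (fun i => (c i).den) (Finset.mem_univ i)
      refine ⟨b * (c i).num, ?_⟩
      rw [hb]
      push_cast
      have := Rat.den_mul_eq_num (c i)
      rw [← this]
      ring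
    choose b hb using hdvd
    refine ⟨∏ i, (c i).den, b, Finset.prod_pos fun i _ => (c i).den_pos, ?_⟩
    rw [← hc, Finset.mul_sum]
    refine Finset.sum_congr rfl fun i _ => ?_
    have h2 : ((b i : ℤ) : ℂ) = ((∏ i, (c i).den : ℕ) : ℂ) * (c i : ℂ) := by exact_mod_cast hb i
    rw [h2, Rat.smul_def, Function.comp_apply]
    ring
  choose D b hD hb using hrel
  set w' : J → ℂ := fun j => (D j : ℂ) * w j - ∑ i, (b j i : ℂ) * w (a i) with hw'
  -- the new elements are in `R Λ`
  have hw'M : ∀ j, InM q (w' j) := by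
    intro j
    rw [inM_iff hq]
    have h1 : w' j = (D j : ℂ) * t j - ∑ i, (b j i : ℂ) * t (a i) := by
      have h2 := hb j
      have h3 : ∑ i, (b j i : ℂ) * w (a i) =
          ∑ i, (b j i : ℂ) * z (a i) + ∑ i, (b j i : ℂ) * t (a i) := by
        rw [← Finset.sum_add_distrib]
        exact Finset.sum_congr rfl fun i _ => by rw [hw (a i)]; ring
      rw [hw']
      simp only
      rw [h3, hw j, ← h2]
      ring
    rw [h1]
    refine sub_mem ?_ (sum_mem fun i _ => ?_)
    · have h2 := nsmul_mem ((inM_iff hq).1 (ht j)) (D j)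
      rwa [nsmul_eq_mul] at h2
    · have h2 := zsmul_mem ((inM_iff hq).1 (ht (a i))) (b j i)
      rwa [zsmul_eq_mul] at h2
  -- independence
  let e : κ ⊕ J ≃ Fin n := (Equiv.sumCongr (Equiv.ofInjective a ha) (Equiv.refl J)).trans
    (Equiv.sumCompl fun j => j ∈ Set.range a)
  have hel : ∀ i, e (Sum.inl i) = a i := fun i => rfl
  have her : ∀ j : J, e (Sum.inr j) = j := fun j => rfl
  have hli' : LinearIndependent ℚ (fun j => Lam.mkQ (w' j)) := by
    rw [Fintype.linearIndependent_iff]
    intro m hm j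
    have h1 := Fintype.linearIndependent_iff.1 (hli.comp e e.injective)
      (Sum.elim (fun i => -∑ j, m j * b j i) (fun j => m j * D j)) (by
        rw [Fintype.sum_sum_type, ← hm]
        simp only [Function.comp_apply, Sum.elim_inl, Sum.elim_inr, hel, her]
        have h2 : ∀ j, m j • Lam.mkQ (w' j) =
            (m j * D j) • Lam.mkQ (w j) - ∑ i, (m j * b j i) • Lam.mkQ (w (a i)) := by
          intro j
          have h3 : w' j = (D j : ℚ) • w j - ∑ i, (b j i : ℚ) • w (a i) := by
            rw [hw']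
            simp only [Rat.smul_def]
            push_cast
            rfl
          rw [h3, map_sub, map_sum, smul_sub, Finset.smul_sum, map_smul, smul_smul]
          congr 1
          refine Finset.sum_congr rfl fun i _ => ?_
          rw [map_smul, smul_smul]
        simp_rw [h2]
        rw [Finset.sum_sub_distrib, Finset.sum_comm]
        simp_rw [neg_smul, Finset.sum_smul]
        rw [Finset.sum_neg_distrib]
        abel) (Sum.inr j)
    simp only [Sum.elim_inr] at h1
    have h4 : (D j : ℚ) ≠ 0 := by exact_mod_cast (hD j).ne'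
    exact (mul_eq_zero.1 h1).resolve_right h4
  have hA := alg_ind_modR' hL hq w' hw'M hli'
  have hB : AlgebraicIndependent (UK hq) (fun i => exp (w (a i))) := by
    have h1 := algIndU' hq (fun i => z (a i)) (fun i => hz _) hlz
    have h2 := alg_ind_scale _ (fun i => exp (t (a i)))
      (fun i => ⟨exp_mem hq (ht _), exp_ne_zero _⟩) h1
    refine (funext fun i => ?_ : (fun i => exp (w (a i))) = _) ▸ h2
    rw [hw (a i), Complex.exp_add, mul_comm]
  have hAB : AlgebraicIndependent (RC hq)
      (Sum.elim (fun i => exp (w (a i))) (fun j => exp (w' j))) := by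
    refine hA.sumElim ?_
    have hle : ∀ x ∈ Algebra.adjoin (RC hq) (Set.range fun j => exp (w' j)), x ∈ UK hq := by
      intro x hx
      induction hx using Algebra.adjoin_induction with
      | mem x hx =>
        obtain ⟨j, rfl⟩ := hx
        exact exp_mem hq (hw'M j)
      | algebraMap r => exact RC_le hq r.2
      | add x y _ _ h1 h2 => exact add_mem h1 h2
      | mul x y _ _ h1 h2 => exact mul_mem h1 h2
    let g : Algebra.adjoin (RC hq) (Set.range fun j => exp (w' j)) →+* UK hq :=
      { toFun := fun z => ⟨z, hle z z.2⟩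
        map_one' := rfl
        map_mul' := fun _ _ => rfl
        map_zero' := rfl
        map_add' := fun _ _ => rfl }
    have hg : Function.Injective g := fun a b hab =>
      Subtype.ext (congrArg (fun z : UK hq => (z : ℂ)) hab)
    exact AlgebraicIndependent.of_ringHom_of_comp_eq g (RingHom.id ℂ) hB hg rfl
  have h3 := le_trdegR (F := F) _ (fun o => by
      rcases o with i | j
      · exact hmem _
      · change exp (w' j) ∈ _
        rw [hw']
        simp only
        rw [Complex.exp_sub, Complex.exp_sum, Complex.exp_nat_mul]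
        refine div_mem (pow_mem (hmem _) _) (prod_mem fun i _ => ?_)
        rw [Complex.exp_int_mul]
        exact zpow_mem (hmem _) _) hAB
  have h4 : Cardinal.mk (κ ⊕ J) = n := by
    rw [Cardinal.mk_congr e, Cardinal.mk_fin]
  rw [h4] at h3
  exact h3

/-- **The transcendence degree** of the field generated by the exponentials of elements of
`K + R Λ`. -/
theorem trdeg_KM (hL : S_LIO2) (hq : ∀ i, 2 ≤ q i) {n : ℕ} (w z t : Fin n → ℂ)
    (hw : ∀ j, w j = z j + t j) (hz : ∀ j, z j ∈ UK hq) (ht : ∀ j, InM q (t j)) :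
    Algebra.trdeg (RC hq) (IntermediateField.adjoin (RC hq) (Set.range fun j => exp (w j))) =
      rk w := by
  obtain ⟨a, hli, hsp⟩ := exists_basis w
  refine le_antisymm (trdeg_leR (RC hq) w a hsp) ?_
  exact schanuel_KM hL hq (fun i => w (a i)) (fun i => z (a i)) (fun i => t (a i))
    (fun i => hw _) (fun i => hz _) (fun i => ht _) hli _
    fun i => IntermediateField.subset_adjoin _ _ ⟨a i, rfl⟩

end Pool.Agent.P8H10.KM
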