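import Pool.Agent.P8H10.KM.Stm

/-!
# Project KM: relations between values of the exponential function and their limits
-/

set_option autoImplicit false

open Filter Topology Complex Finset

namespace Pool.Agent.P8H10.KM

/-- the field of the algebraic numbers -/
abbrev QB : Type := ↥(algebraicClosure ℚ ℂ)

theorem qb_closed : IsAlgClosed QB :=
  (algebraicClosure.isAlgClosure (F := ℚ) (E := ℂ)).isAlgClosed

theorem qb_alg : Algebra.IsAlgebraic ℚ QB := by
  refine ⟨fun x => ?_⟩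
  obtain ⟨P, hP, hx⟩ := mem_algebraicClosure_iff.1 x.2
  refine ⟨P, hP, ?_⟩
  have h1 : ((Polynomial.aeval x P : QB) : ℂ) = Polynomial.aeval (x : ℂ) P := by
    rw [Polynomial.aeval_def, Polynomial.aeval_def]
    have h2 := Polynomial.hom_eval₂ P (algebraMap ℚ QB) (algebraicClosure ℚ ℂ).val.toRingHom x
    exact h2
  exact Subtype.ext (by rw [h1, hx]; rfl)

/-- a minimal relation contained in a given one -/
theorem exists_min {n : ℕ} (hn : 0 < n) (f : Fin n → ℂ) (h : ∑ i, f i = 0) :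
    ∃ J : Finset (Fin n), J.Nonempty ∧ ∑ i ∈ J, f i = 0 ∧
      ∀ J' ⊆ J, J'.Nonempty → ∑ i ∈ J', f i = 0 → J' = J := by
  classical
  have hne : ((Finset.univ : Finset (Finset (Fin n))).filter
      fun J => J.Nonempty ∧ ∑ i ∈ J, f i = 0).Nonempty := by
    refine ⟨Finset.univ, ?_⟩
    have : Nonempty (Fin n) := ⟨⟨0, hn⟩⟩
    simp [h, Finset.univ_nonempty]
  obtain ⟨J, hJ, hmin⟩ := Finset.exists_min_image _ (fun J => J.card) hne
  simp only [Finset.mem_filter, Finset.mem_univ, true_and] at hJ hmin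
  exact ⟨J, hJ.1, hJ.2, fun J' hs h1 h2 => Finset.eq_of_subset_of_card_le hs (hmin J' ⟨h1, h2⟩)⟩

theorem exp_alg {l : ℂ} (hl : IsAlgebraic ℚ (exp l)) (u : ℤ) {v : ℕ} (hv : 0 < v) :
    IsAlgebraic ℚ (exp ((u : ℂ) / v * l)) := by
  refine IsAlgebraic.of_pow hv ?_
  have hv0 : (v : ℂ) ≠ 0 := by exact_mod_cast hv.ne'
  have h1 : exp ((u : ℂ) / v * l) ^ v = exp l ^ u := by
    rw [← Complex.exp_nat_mul, ← Complex.exp_int_mul]
    congr 1
    field_simp
  rw [h1]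
  rcases u with u | u
  · rw [Int.ofNat_eq_natCast, zpow_natCast]
    exact hl.pow u
  · rw [zpow_negSucc]
    exact (hl.pow _).inv

theorem exp_sum_alg {s : ℕ} {l : Fin s → ℂ} (hl : ∀ k, IsAlgebraic ℚ (exp (l k))) (u : Fin s → ℤ)
    {v : ℕ} (hv : 0 < v) : IsAlgebraic ℚ (exp (∑ k, (u k : ℂ) / v * l k)) := by
  rw [Complex.exp_sum]
  refine Finset.prod_induction _ (IsAlgebraic ℚ) (fun a b ha hb => ha.mul hb) isAlgebraic_one
    fun k _ => exp_alg (hl k) (u k) hv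

/-- Let the relation `∑ c j * exp (∑ k, x j k * l k) = 0`, `c j ≠ 0` algebraic, hold for a sequence of
rational vectors which converges to the `x j k`. Then `exp (∑ k, (x i k - x j k) * l k)` is algebraic for
some `i ≠ j`. -/
theorem rel (hF : S_FIN) {s n : ℕ} (hn : 0 < n) (l : Fin s → ℂ)
    (hl : ∀ k, IsAlgebraic ℚ (exp (l k))) (x : Fin n → Fin s → ℝ) (c : Fin n → ℂ)
    (hc0 : ∀ j, c j ≠ 0) (hc : ∀ j, IsAlgebraic ℚ (c j)) (u : ℕ → Fin n → Fin s → ℤ) (v : ℕ → ℕ)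
    (hv : ∀ m, 0 < v m) (hlim : ∀ j k, Tendsto (fun m => (u m j k : ℝ) / v m) atTop (𝓝 (x j k)))
    (hrel : ∀ m, ∑ j, c j * exp (∑ k, (u m j k : ℂ) / v m * l k) = 0) :
    ∃ i j, i ≠ j ∧ IsAlgebraic ℚ (exp (∑ k, ((x i k : ℂ) - x j k) * l k)) := by
  classical
  -- a bound
  obtain ⟨B, hB⟩ : ∃ B : ℕ, ∀ m j k, |u m j k| ≤ B * v m := by
    have h1 : ∀ j k, ∃ C : ℝ, ∀ m, |(u m j k : ℝ) / v m| ≤ C := by
      intro j k
      obtain ⟨C, hC⟩ := (Metric.isBounded_range_of_tendsto _ (hlim j k)).exists_norm_le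
      exact ⟨C, fun m => by
        have := hC _ ⟨m, rfl⟩
        rwa [Real.norm_eq_abs] at this⟩
    choose C hC using h1
    refine ⟨∑ j, ∑ k, ⌈|C j k|⌉₊, fun m j k => ?_⟩
    have h2 := hC j k m
    have hv0 : (0 : ℝ) < v m := by exact_mod_cast hv m
    rw [abs_div, abs_of_pos hv0, div_le_iff₀ hv0] at h2
    have h3 : (⌈|C j k|⌉₊ : ℝ) ≤ ((∑ j, ∑ k, ⌈|C j k|⌉₊ : ℕ) : ℝ) := by
      exact_mod_cast (Finset.single_le_sum (f := fun k => ⌈|C j k|⌉₊) (fun _ _ => Nat.zero_le _)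
        (Finset.mem_univ k)).trans (Finset.single_le_sum
          (f := fun j => ∑ k, ⌈|C j k|⌉₊) (fun _ _ => Nat.zero_le _) (Finset.mem_univ j))
    have h4 : |(u m j k : ℝ)| ≤ ((∑ j, ∑ k, ⌈|C j k|⌉₊ : ℕ) : ℝ) * v m :=
      h2.trans (mul_le_mul_of_nonneg_right (((le_abs_self _).trans (Nat.le_ceil _)).trans h3) hv0.le)
    exact_mod_cast h4
  -- minimal relations
  choose J hJ1 hJ2 hJ3 using fun m => exists_min hn _ (hrel m)
  obtain ⟨J₀, hJ₀⟩ := Finite.exists_infinite_fiber J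
  have hS : (J ⁻¹' {J₀}).Infinite := Set.infinite_coe_iff.1 hJ₀
  obtain ⟨m₀, hm₀⟩ := hS.nonempty
  have hm₀' : J m₀ = J₀ := hm₀
  have hcard : 1 < J₀.card := by
    by_contra hcon
    have h1 : J₀.card = 1 := by
      have := (hJ1 m₀).card_pos
      rw [hm₀'] at this
      omega
    obtain ⟨a, ha⟩ := Finset.card_eq_one.1 h1
    have h2 := hJ2 m₀
    rw [hm₀', ha, Finset.sum_singleton] at h2
    exact mul_ne_zero (hc0 a) (exp_ne_zero _) h2
  obtain ⟨a, ha, b, hb, hab⟩ := Finset.one_lt_card.1 hcard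
  refine ⟨a, b, hab, ?_⟩
  -- the finite set
  have : IsAlgClosed QB := qb_closed
  have : Algebra.IsAlgebraic ℚ QB := qb_alg
  let e : Fin J₀.card ≃ J₀ := J₀.equivFin.symm
  have hα0 : ∀ k, (⟨exp (l k), mem_algebraicClosure_iff.2 (hl k)⟩ : QB) ≠ 0 := by
    intro k h0
    exact exp_ne_zero (l k) (congrArg Subtype.val h0)
  have hfin := hF QB s (fun k => ⟨exp (l k), mem_algebraicClosure_iff.2 (hl k)⟩) hα0 J₀.card
    (fun i => ⟨c (e i), mem_algebraicClosure_iff.2 (hc _)⟩) B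
  obtain ⟨T, hT⟩ : ∃ T : Set ℂ, T = Subtype.val '' {β : QB | ∃ (ρ : Fin J₀.card → QB) (q : ℕ)
    (w : Fin J₀.card → Fin s → ℤ), 0 < q ∧
    (∀ i k, |w i k| ≤ B * q) ∧
    (∀ i, ρ i ^ q = ∏ k, (⟨exp (l k), mem_algebraicClosure_iff.2 (hl k)⟩ : QB) ^ w i k) ∧
    ∑ i, (⟨c (e i), mem_algebraicClosure_iff.2 (hc _)⟩ : QB) * ρ i = 0 ∧
    (∀ J : Finset (Fin J₀.card), J.Nonempty →
      ∑ i ∈ J, (⟨c (e i), mem_algebraicClosure_iff.2 (hc _)⟩ : QB) * ρ i = 0 → J = Finset.univ) ∧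
    ∃ i j, β = ρ i / ρ j} := ⟨_, rfl⟩
  have hTfin : T.Finite := by
    rw [hT]
    exact hfin.image _
  have hTalg : ∀ z ∈ T, IsAlgebraic ℚ z := by
    rw [hT]
    rintro z ⟨β, -, rfl⟩
    exact mem_algebraicClosure_iff.1 β.2
  set β : ℕ → ℂ := fun m => exp (∑ k, ((u m a k : ℂ) / v m - (u m b k : ℂ) / v m) * l k) with hβ
  have hmem : ∀ m ∈ J ⁻¹' {J₀}, β m ∈ T := by
    intro m hm
    have hm' : J m = J₀ := hm
    rw [hT]
    let ρ : Fin J₀.card → QB := fun i => ⟨exp (∑ k, (u m (e i) k : ℂ) / v m * l k),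
      mem_algebraicClosure_iff.2 (exp_sum_alg hl _ (hv m))⟩
    have hsumJ : ∀ J' : Finset (Fin J₀.card),
        ((∑ i ∈ J', (⟨c (e i), mem_algebraicClosure_iff.2 (hc _)⟩ : QB) * ρ i : QB) : ℂ) =
          ∑ j ∈ J'.map (e.toEmbedding.trans (Function.Embedding.subtype _)),
            c j * exp (∑ k, (u m j k : ℂ) / v m * l k) := by
      intro J'
      rw [Finset.sum_map]
      push_cast
      rfl
    have hmapsub : ∀ J' : Finset (Fin J₀.card),
        J'.map (e.toEmbedding.trans (Function.Embedding.subtype _)) ⊆ J₀ := by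
      intro J' j hj
      rw [Finset.mem_map] at hj
      obtain ⟨i, -, rfl⟩ := hj
      exact (e i).2
    have hmapuniv : (Finset.univ : Finset (Fin J₀.card)).map
        (e.toEmbedding.trans (Function.Embedding.subtype _)) = J₀ := by
      refine Finset.eq_of_subset_of_card_le (hmapsub _) ?_
      rw [Finset.card_map, Finset.card_univ, Fintype.card_fin]
    refine ⟨ρ (e.symm ⟨a, ha⟩) / ρ (e.symm ⟨b, hb⟩), ⟨ρ, v m, fun i k => u m (e i) k, hv m,
      fun i k => hB m _ k, fun i => ?_, ?_, fun J' hJ' h0 => ?_, _, _, rfl⟩, ?_⟩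
    · refine Subtype.ext ?_
      push_cast
      change exp (∑ k, (u m (e i) k : ℂ) / v m * l k) ^ v m = ∏ k, exp (l k) ^ u m (e i) k
      rw [← Complex.exp_nat_mul, Finset.mul_sum, Complex.exp_sum]
      refine Finset.prod_congr rfl fun k _ => ?_
      rw [← Complex.exp_int_mul]
      congr 1
      have hv0 : (v m : ℂ) ≠ 0 := by exact_mod_cast (hv m).ne'
      field_simp
    · refine Subtype.ext ?_
      rw [hsumJ, hmapuniv, ← hm', hJ2 m]
      rfl
    · have h1 : ((∑ i ∈ J', (⟨c (e i), mem_algebraicClosure_iff.2 (hc _)⟩ : QB) * ρ i : QB) : ℂ)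
        = 0 := by rw [h0]; rfl
      rw [hsumJ] at h1
      have h2 := (hJ3 m _ (by rw [hm']; exact hmapsub J') (hJ'.map) h1).trans hm'
      exact Finset.map_injective _ (h2.trans hmapuniv.symm)
    · push_cast
      change exp (∑ k, (u m (e (e.symm ⟨a, ha⟩)) k : ℂ) / v m * l k) /
        exp (∑ k, (u m (e (e.symm ⟨b, hb⟩)) k : ℂ) / v m * l k) = _
      rw [Equiv.apply_symm_apply, Equiv.apply_symm_apply, ← Complex.exp_sub,
        ← Finset.sum_sub_distrib, hβ]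
      simp only [sub_mul]
  -- the limit
  have hβlim : Tendsto β atTop (𝓝 (exp (∑ k, ((x a k : ℂ) - x b k) * l k))) := by
    refine (Complex.continuous_exp.tendsto _).comp ?_
    refine tendsto_finset_sum _ fun k _ => Tendsto.mul_const _ ?_
    have h1 : ∀ j, Tendsto (fun m => (u m j k : ℂ) / v m) atTop (𝓝 (x j k : ℂ)) := by
      intro j
      have := (Complex.continuous_ofReal.tendsto _).comp (hlim j k)
      refine this.congr fun m => ?_
      simp
    exact (h1 a).sub (h1 b)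
  by_contra hcon
  have hnot : exp (∑ k, ((x a k : ℂ) - x b k) * l k) ∉ T := fun h => hcon (hTalg _ h)
  have hopen : Tᶜ ∈ 𝓝 (exp (∑ k, ((x a k : ℂ) - x b k) * l k)) :=
    hTfin.isClosed.isOpen_compl.mem_nhds hnot
  have hev := hβlim.eventually hopen
  have hfreq : ∃ᶠ m in atTop, m ∈ J ⁻¹' {J₀} := Nat.frequently_atTop_iff_infinite.2 hS
  obtain ⟨m, h1, h2⟩ := (hfreq.and_eventually hev).exists
  exact h2 (hmem m h1)

end Pool.Agent.P8H10.KM
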