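import Pool.Agent.P8H10.KM.Rel
import Pool.Agent.P8H10.KM.Fin2

/-!
# Project KM: relations between values of the exponential function and their limits, with variable
rational coefficients
-/

set_option autoImplicit false

open Filter Topology Complex Finset

namespace Pool.Agent.P8H10.KM

/-- Let relations `∑ j, (w j / v) * exp (∑ k, (u j k / v) * l k) = 0` be given for a sequence of
rational vectors and coefficients such that the exponents converge to `x j k` and the coefficients to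
`y j ≠ 0`. Then `exp (∑ k, (x i k - x j k) * l k)` is algebraic for some `i ≠ j`. -/
theorem rel2 {s n : ℕ} (hn : 0 < n) (l : Fin s → ℂ)
    (hl : ∀ k, IsAlgebraic ℚ (exp (l k))) (x : Fin n → Fin s → ℝ) (y : Fin n → ℝ)
    (hy0 : ∀ j, y j ≠ 0) (u : ℕ → Fin n → Fin s → ℤ) (w : ℕ → Fin n → ℤ) (v : ℕ → ℕ)
    (hv : ∀ m, 0 < v m) (hlim : ∀ j k, Tendsto (fun m => (u m j k : ℝ) / v m) atTop (𝓝 (x j k)))
    (hlimy : ∀ j, Tendsto (fun m => (w m j : ℝ) / v m) atTop (𝓝 (y j)))
    (hrel : ∀ m, ∑ j, (w m j : ℂ) / v m * exp (∑ k, (u m j k : ℂ) / v m * l k) = 0) :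
    ∃ i j, i ≠ j ∧ IsAlgebraic ℚ (exp (∑ k, ((x i k : ℂ) - x j k) * l k)) := by
  classical
  -- the coefficients do not vanish
  have hw0 : ∀ᶠ m in atTop, ∀ j, (w m j : ℂ) / v m ≠ 0 := by
    rw [eventually_all]
    intro j
    have h1 := (hlimy j).eventually_ne (hy0 j)
    refine h1.mono fun m hm h0 => hm ?_
    have h2 : (((w m j : ℝ) / v m : ℝ) : ℂ) = 0 := by
      push_cast
      exact h0
    exact_mod_cast h2
  -- a bound
  obtain ⟨B, hB⟩ : ∃ B : ℕ, ∀ m j k, |u m j k| ≤ B * v m := by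
    have h1 : ∀ j k, ∃ C : ℝ, ∀ m, |(u m j k : ℝ) / v m| ≤ C := by
      intro j k
      obtain ⟨C, hC⟩ := (Metric.isBounded_range_of_tendsto _ (hlim j k)).exists_norm_le
      exact ⟨C, fun m => by
        have := hC _ ⟨m, rfl⟩
        rwa [Real.norm_eq_abs] at this⟩
    choose C hC using h1
    refine ⟨∑ j, ∑ k, ⌈|C j k|⌉₊, fun m j k => ?_⟩
    have h2 := hC j k m
    have hv0 : (0 : ℝ) < v m := by exact_mod_cast hv m
    rw [abs_div, abs_of_pos hv0, div_le_iff₀ hv0] at h2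
    have h3 : (⌈|C j k|⌉₊ : ℝ) ≤ ((∑ j, ∑ k, ⌈|C j k|⌉₊ : ℕ) : ℝ) := by
      exact_mod_cast (Finset.single_le_sum (f := fun k => ⌈|C j k|⌉₊) (fun _ _ => Nat.zero_le _)
        (Finset.mem_univ k)).trans (Finset.single_le_sum
          (f := fun j => ∑ k, ⌈|C j k|⌉₊) (fun _ _ => Nat.zero_le _) (Finset.mem_univ j))
    have h4 : |(u m j k : ℝ)| ≤ ((∑ j, ∑ k, ⌈|C j k|⌉₊ : ℕ) : ℝ) * v m :=
      h2.trans (mul_le_mul_of_nonneg_right (((le_abs_self _).trans (Nat.le_ceil _)).trans h3) hv0.le)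
    exact_mod_cast h4
  -- minimal relations
  choose J hJ1 hJ2 hJ3 using fun m => exists_min hn _ (hrel m)
  obtain ⟨J₀, hJ₀⟩ := Finite.exists_infinite_fiber J
  have hS : (J ⁻¹' {J₀}).Infinite := Set.infinite_coe_iff.1 hJ₀
  have hfreq : ∃ᶠ m in atTop, m ∈ J ⁻¹' {J₀} := Nat.frequently_atTop_iff_infinite.2 hS
  obtain ⟨m₀, hm₀, hwm⟩ := (hfreq.and_eventually hw0).exists
  have hm₀' : J m₀ = J₀ := hm₀
  have hcard : 1 < J₀.card := by
    by_contra hcon
    have h1 : J₀.card = 1 := by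
      have := (hJ1 m₀).card_pos
      rw [hm₀'] at this
      omega
    obtain ⟨a, ha⟩ := Finset.card_eq_one.1 h1
    have h2 := hJ2 m₀
    rw [hm₀', ha, Finset.sum_singleton] at h2
    exact mul_ne_zero (hwm a) (exp_ne_zero _) h2
  obtain ⟨a, ha, b, hb, hab⟩ := Finset.one_lt_card.1 hcard
  refine ⟨a, b, hab, ?_⟩
  -- the finite set
  have : IsAlgClosed QB := qb_closed
  have : Algebra.IsAlgebraic ℚ QB := qb_alg
  let e : Fin J₀.card ≃ J₀ := J₀.equivFin.symm
  set α : Fin s → QB := fun k => ⟨exp (l k), mem_algebraicClosure_iff.2 (hl k)⟩ with hα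
  have hα0 : ∀ k, α k ≠ 0 := by
    intro k h0
    exact exp_ne_zero (l k) (congrArg Subtype.val h0)
  set F : IntermediateField ℚ QB := IntermediateField.adjoin ℚ (Set.range α) with hF
  have hfd : FiniteDimensional ℚ F := by
    have : Finite ↥(Set.range α) := (Set.toFinite _).to_subtype
    exact IntermediateField.finiteDimensional_adjoin
      (fun x _ => (Algebra.IsAlgebraic.isAlgebraic (R := ℚ) x).isIntegral)
  have hfin := fin2 F s α (fun k => IntermediateField.subset_adjoin _ _ ⟨k, rfl⟩) hα0 J₀.card B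
  obtain ⟨T, hT⟩ : ∃ T : Set ℂ, T = Subtype.val '' {β : QB | ∃ (c ρ : Fin J₀.card → QB) (q : ℕ)
    (w : Fin J₀.card → Fin s → ℤ), (∀ i, c i ∈ F) ∧ 0 < q ∧
    (∀ i k, |w i k| ≤ B * q) ∧
    (∀ i, ρ i ^ q = ∏ k, α k ^ w i k) ∧
    ∑ i, c i * ρ i = 0 ∧
    (∀ J : Finset (Fin J₀.card), J.Nonempty → ∑ i ∈ J, c i * ρ i = 0 → J = Finset.univ) ∧
    ∃ i j, β = ρ i / ρ j} := ⟨_, rfl⟩
  have hTfin : T.Finite := by
    rw [hT]
    exact hfin.image _
  have hTalg : ∀ z ∈ T, IsAlgebraic ℚ z := by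
    rw [hT]
    rintro z ⟨β, -, rfl⟩
    exact mem_algebraicClosure_iff.1 β.2
  set β : ℕ → ℂ := fun m => exp (∑ k, ((u m a k : ℂ) / v m - (u m b k : ℂ) / v m) * l k) with hβ
  have hmem : ∀ m ∈ J ⁻¹' {J₀}, β m ∈ T := by
    intro m hm
    have hm' : J m = J₀ := hm
    rw [hT]
    let ρ : Fin J₀.card → QB := fun i => ⟨exp (∑ k, (u m (e i) k : ℂ) / v m * l k),
      mem_algebraicClosure_iff.2 (exp_sum_alg hl _ (hv m))⟩
    let c : Fin J₀.card → QB := fun i => (w m (e i) : QB) / (v m : QB)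
    have hsumJ : ∀ J' : Finset (Fin J₀.card),
        ((∑ i ∈ J', c i * ρ i : QB) : ℂ) =
          ∑ j ∈ J'.map (e.toEmbedding.trans (Function.Embedding.subtype _)),
            (w m j : ℂ) / v m * exp (∑ k, (u m j k : ℂ) / v m * l k) := by
      intro J'
      rw [Finset.sum_map]
      simp only [c, ρ]
      push_cast
      rfl
    have hmapsub : ∀ J' : Finset (Fin J₀.card),
        J'.map (e.toEmbedding.trans (Function.Embedding.subtype _)) ⊆ J₀ := by
      intro J' j hj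
      rw [Finset.mem_map] at hj
      obtain ⟨i, -, rfl⟩ := hj
      exact (e i).2
    have hmapuniv : (Finset.univ : Finset (Fin J₀.card)).map
        (e.toEmbedding.trans (Function.Embedding.subtype _)) = J₀ := by
      refine Finset.eq_of_subset_of_card_le (hmapsub _) ?_
      rw [Finset.card_map, Finset.card_univ, Fintype.card_fin]
    refine ⟨ρ (e.symm ⟨a, ha⟩) / ρ (e.symm ⟨b, hb⟩), ⟨c, ρ, v m, fun i k => u m (e i) k,
      fun i => div_mem (intCast_mem _ _) (natCast_mem _ _), hv m,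
      fun i k => hB m _ k, fun i => ?_, ?_, fun J' hJ' h0 => ?_, _, _, rfl⟩, ?_⟩
    · refine Subtype.ext ?_
      push_cast
      change exp (∑ k, (u m (e i) k : ℂ) / v m * l k) ^ v m = ∏ k, exp (l k) ^ u m (e i) k
      rw [← Complex.exp_nat_mul, Finset.mul_sum, Complex.exp_sum]
      refine Finset.prod_congr rfl fun k _ => ?_
      rw [← Complex.exp_int_mul]
      congr 1
      have hv0 : (v m : ℂ) ≠ 0 := by exact_mod_cast (hv m).ne'
      field_simp
    · refine Subtype.ext ?_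
      rw [hsumJ, hmapuniv, ← hm', hJ2 m]
      rfl
    · have h1 : ((∑ i ∈ J', c i * ρ i : QB) : ℂ) = 0 := by rw [h0]; rfl
      rw [hsumJ] at h1
      have h2 := (hJ3 m _ (by rw [hm']; exact hmapsub J') (hJ'.map) h1).trans hm'
      exact Finset.map_injective _ (h2.trans hmapuniv.symm)
    · push_cast
      change exp (∑ k, (u m (e (e.symm ⟨a, ha⟩)) k : ℂ) / v m * l k) /
        exp (∑ k, (u m (e (e.symm ⟨b, hb⟩)) k : ℂ) / v m * l k) = _
      rw [Equiv.apply_symm_apply, Equiv.apply_symm_apply, ← Complex.exp_sub,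
        ← Finset.sum_sub_distrib, hβ]
      simp only [sub_mul]
  -- the limit
  have hβlim : Tendsto β atTop (𝓝 (exp (∑ k, ((x a k : ℂ) - x b k) * l k))) := by
    refine (Complex.continuous_exp.tendsto _).comp ?_
    refine tendsto_finset_sum _ fun k _ => Tendsto.mul_const _ ?_
    have h1 : ∀ j, Tendsto (fun m => (u m j k : ℂ) / v m) atTop (𝓝 (x j k : ℂ)) := by
      intro j
      have := (Complex.continuous_ofReal.tendsto _).comp (hlim j k)
      refine this.congr fun m => ?_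
      simp
    exact (h1 a).sub (h1 b)
  by_contra hcon
  have hnot : exp (∑ k, ((x a k : ℂ) - x b k) * l k) ∉ T := fun h => hcon (hTalg _ h)
  have hopen : Tᶜ ∈ 𝓝 (exp (∑ k, ((x a k : ℂ) - x b k) * l k)) :=
    hTfin.isClosed.isOpen_compl.mem_nhds hnot
  have hev := hβlim.eventually hopen
  obtain ⟨m, h1, h2⟩ := (hfreq.and_eventually hev).exists
  exact h2 (hmem m h1)

end Pool.Agent.P8H10.KM
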