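import Mathlib

/-!
# Project KM: relations between radicals (statements of the packages)

`Ω` is an algebraic closure of `ℚ` (below: the algebraic numbers in `ℂ`).
Every package is a `def S_X : Prop`; deliver `theorem x : S_X` (or `theorem x : S_Y → … → S_X`).
-/

set_option autoImplicit false

open Filter Topology

namespace Pool.Agent.P8H10.KM

/-- **KUM** (Kummer independence, about 100 lines). Let `E` contain the `q`-th roots of unity, and let
`∑ c i * ρ i = 0`, `c i ∈ E`, `ρ i ≠ 0`, `ρ i ^ q ∈ E`. Then for every `i₀` the sum over the `i` with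
`ρ i / ρ i₀ ∈ E` is zero.

Proof. `G = Ω ≃ₐ[E] Ω`, the extension `Ω / E` is Galois (characteristic zero, algebraically closed and
algebraic: `IsAlgClosure E Ω`), so an element fixed by `G` is in `E`. For `σ ∈ G` the number
`χ i σ = σ (ρ i) / ρ i` is a `q`-th root of unity, so in `E`, so `χ i : G →* Ω` (or `Ωˣ`) is a
homomorphism: `σ τ ρ i = σ (χ i τ * ρ i) = χ i τ * χ i σ * ρ i`. `χ i = χ j` if and only if `ρ i / ρ j` is
fixed by `G`, that is, is in `E`. Apply `σ` to the relation: `∑ i, (c i * ρ i) * χ i σ = 0` for all `σ`.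
Collect the `i` with the same `χ i` and use `linearIndependent_monoidHom` (Dedekind): for each character
`χ` the sum of the `c i * ρ i` over the `i` with `χ i = χ` is zero. Take `χ = χ i₀`. -/
def S_KUM : Prop := ∀ (Ω : Type) [Field Ω] [CharZero Ω] [IsAlgClosed Ω] [Algebra.IsAlgebraic ℚ Ω]
  (E : IntermediateField ℚ Ω) (q : ℕ), 0 < q → (∀ z : Ω, z ^ q = 1 → z ∈ E) →
  ∀ (n : ℕ) (c ρ : Fin n → Ω), (∀ i, c i ∈ E) → (∀ i, ρ i ≠ 0 ∧ ρ i ^ q ∈ E) →
    ∑ i, c i * ρ i = 0 → ∀ (i₀ : Fin n) (J : Finset (Fin n)), (∀ i, i ∈ J ↔ ρ i / ρ i₀ ∈ E) →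
      ∑ i ∈ J, c i * ρ i = 0

/-- **ABE** (radicals in cyclotomic extensions, about 120 lines). Let `W > 0` be such that all roots of
unity `z` in `F` satisfy `z ^ W = 1`. If `c ≠ 0`, `c ^ q ∈ F` and `c ∈ F (μ_q)`, then
`c ^ W * η ∈ F` for some `q`-th root of unity `η`.

Proof. Let `ζ` be a primitive `q`-th root of unity, `G = Ω ≃ₐ[F] Ω` (fixed field `F`, as in KUM). For
`σ ∈ G` there are an integer `a` with `σ η = η ^ a` for all `η ∈ μ_q`, and `ζ_σ ∈ μ_q` with
`σ c = c * ζ_σ`. If `σ` fixes all elements of `μ_q` then `σ c = c`, since `c ∈ F (μ_q)`; apply this to the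
commutators: `σ (τ c) = τ (σ c)` for all `σ`, `τ`. Let `H` be the set of all integers `n` such that
`c ^ n * η ∈ F` for some `η ∈ μ_q`; this is a subgroup of `ℤ` which contains `q`. It contains `1 - a` for
every `τ ∈ G` with `τ η = η ^ a` on `μ_q`: the element `d = c ^ (1 - a) * ζ_τ` is fixed by each `σ ∈ G`,
because `σ (τ c) = τ (σ c)` means `ζ_σ * σ ζ_τ = ζ_τ * ζ_σ ^ a`. Let `H = ℤ h`, `h > 0` (`q ∈ H`). Then
`h ∣ q` and `h ∣ a - 1` for all `τ`, so `ζ ^ (q / h)` is fixed by `G`, so it is in `F`, and it is a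
primitive `h`-th root of unity; so `h ∣ W`, `W ∈ H`. -/
def S_ABE : Prop := ∀ (Ω : Type) [Field Ω] [CharZero Ω] [IsAlgClosed Ω] [Algebra.IsAlgebraic ℚ Ω]
  (F : IntermediateField ℚ Ω) (W : ℕ), 0 < W → (∀ z ∈ F, ∀ n : ℕ, 0 < n → z ^ n = 1 → z ^ W = 1) →
  ∀ q : ℕ, 0 < q → ∀ c : Ω, c ≠ 0 → c ^ q ∈ F →
    c ∈ F ⊔ IntermediateField.adjoin ℚ {z : Ω | z ^ q = 1} → ∃ η : Ω, η ^ q = 1 ∧ c ^ W * η ∈ F

/-- **NOR** (a case of Northcott's theorem, about 120 lines). Let `F` be a number field,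
`α k ∈ F`, `α k ≠ 0`. For every `B` there are only finitely many `γ ∈ F` with
`γ ^ q = ∏ k, α k ^ n k`, `q > 0`, `|n k| ≤ B q`.

Proof. Choose an integer `N > 0` such that `N * α k` and `N * (α k)⁻¹` are integral for all `k`
(`exists_integral_multiple`). Then `x = N ^ (B * s) * γ` is integral: `x ^ q` is the product over `k` of
`N ^ (B * q) * α k ^ n k`, which is `N ^ (B * q - |n k|)` times the `|n k|`-th power of `N * α k` or
`N * (α k)⁻¹`. For each embedding `φ` of `F` into `ℂ` we have `‖φ γ‖ ^ q ≤ R ^ (s * B * q)`, where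
`R ≥ 1` bounds all `‖φ (α k)‖` and `‖φ (α k)⁻¹‖`; so `‖φ x‖ ≤ N ^ (B * s) * R ^ (s * B)`, and
`NumberField.Embeddings.finite_of_norm_le` shows that there are finitely many `x`. -/
def S_NOR : Prop := ∀ (Ω : Type) [Field Ω] [CharZero Ω] [IsAlgClosed Ω] [Algebra.IsAlgebraic ℚ Ω]
  (F : IntermediateField ℚ Ω) [FiniteDimensional ℚ F] (s : ℕ) (α : Fin s → Ω),
  (∀ k, α k ∈ F ∧ α k ≠ 0) → ∀ B : ℕ, Set.Finite {γ : Ω | γ ∈ F ∧ ∃ q : ℕ, 0 < q ∧
    ∃ n : Fin s → ℤ, (∀ k, |n k| ≤ B * q) ∧ γ ^ q = ∏ k, α k ^ n k}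

/-- **MAN** (Mann's theorem with arbitrary algebraic coefficients, about 250 lines). Let
`∑ a i * η i = 0` be a relation between roots of unity with the fixed algebraic coefficients `a i`
without proper vanishing subsums. Then `(η i / η j) ^ M = 1`, where `M` depends only on the `a i`.

Proof. Let `F = ℚ (a)`, a number field. The degrees `[F (μ_m) : ℚ (μ_m)] ≥ 1` do not increase when `m` is
replaced by a multiple. Choose `f ≥ 1` where the degree is minimal; then it is the same for all the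
multiples `m` of `f`, so `[F (μ_n) : F (μ_m)] = [ℚ (μ_n) : ℚ (μ_m)] = φ(n) / φ(m)` for `f ∣ m ∣ n`. Let
`M = f * primorial n`. Let `N` be the smallest positive multiple of `f` with `(η i / η j) ^ N = 1` for
all `i`, `j`; assume that `N` does not divide `M`. Then there is a prime `p` with `p ∣ N / f` such that,
with `m = N / p` (a multiple of `f`), `p ∣ m` or `p > n`. Fix `j₀`; let `ζ` be a primitive `N`-th root of
unity. Case `p ∣ m`: `φ(N) / φ(m) = p`, so `1, ζ, …, ζ ^ (p - 1)` are linearly independent over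
`F (μ_m)`. Write `η i / η j₀ = ζ ^ (e i)`, `e i = r i + p * b i`, `r i < p`; the part of the relation with
`r i = r` is `ζ ^ r` times an element of `F (μ_m)` and is zero for each `r`. By minimality all `r i` are
equal to `r j₀ = 0`, so all `η i / η j₀` are in `μ_m`, a contradiction. Case `p ∤ m`: `η i / η j₀ =
ζ_p ^ (r i) * (element of μ_m)`, `[F (μ_N) : F (μ_m)] = p - 1`, so the parts `S_r` of the relation (without
the factor `ζ_p ^ r`) are all equal for `0 ≤ r < p`; as `p > n` one of them is an empty sum, so all are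
zero, and we conclude as before.
The model is `Pool/Agent/K7/H58/IhCore.lean`, `IhStep.lean`, `IhFin.lean` of the starting files (Mathlib
only, 300 lines), where exactly this is done for coefficients in a cyclotomic field and sums which are
algebraic integers in place of sums which are zero. -/
def S_MAN : Prop := ∀ (Ω : Type) [Field Ω] [CharZero Ω] [IsAlgClosed Ω] [Algebra.IsAlgebraic ℚ Ω]
  (n : ℕ) (a : Fin n → Ω), ∃ M : ℕ, 0 < M ∧ ∀ η : Fin n → Ω, (∀ i, ∃ N : ℕ, 0 < N ∧ η i ^ N = 1) →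
    ∑ i, a i * η i = 0 →
    (∀ J : Finset (Fin n), J.Nonempty → ∑ i ∈ J, a i * η i = 0 → J = Finset.univ) →
    ∀ i j, (η i / η j) ^ M = 1

/-- **FIN** (from KUM, ABE, NOR, MAN; helper10). The quotients of the terms of the relations with given
coefficients between radicals `∏ α k ^ (w k / q)` with bounded exponents, without proper vanishing
subsums, are a finite set. -/
def S_FIN : Prop := ∀ (Ω : Type) [Field Ω] [CharZero Ω] [IsAlgClosed Ω] [Algebra.IsAlgebraic ℚ Ω]
  (s : ℕ) (α : Fin s → Ω), (∀ k, α k ≠ 0) → ∀ (n : ℕ) (c : Fin n → Ω) (B : ℕ),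
  Set.Finite {β : Ω | ∃ (ρ : Fin n → Ω) (q : ℕ) (w : Fin n → Fin s → ℤ), 0 < q ∧
    (∀ i k, |w i k| ≤ B * q) ∧ (∀ i, ρ i ^ q = ∏ k, α k ^ w i k) ∧ ∑ i, c i * ρ i = 0 ∧
    (∀ J : Finset (Fin n), J.Nonempty → ∑ i ∈ J, c i * ρ i = 0 → J = Finset.univ) ∧
    ∃ i j, β = ρ i / ρ j}

end Pool.Agent.P8H10.KM
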