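import Pool.Agent.R347.LW.Ex2

/-!
# Project KM: the explicit numbers
-/

set_option autoImplicit false

open Pool.Agent.R347.LW

namespace Pool.Agent.P8H10.KM

/-- **IRR** (about 80 lines). `xiT A = ∑' k, trT A k`, `trT A k = 2 ^ (-eT k)` for `k ∈ A` and `0` otherwise
(`Pool/Agent/R347/LW/Ex2.lean`, with `eT (k + 1) = tow (k + 2) (eT k)`, much larger than `eT k`). For
pairwise disjoint infinite sets `S j` the integral combinations of the numbers `xiT (S j)` with integral
coefficients, not all zero, are irrational.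

Proof. Let `y = ∑ m j * xiT (S j)`, `y = ∑' k, ε k * 2 ^ (-eT k)`, where `ε k = m j` for `k ∈ S j` and `ε k = 0`
if there is no such `j`. Suppose `D * y` is an integer, `D > 0`. Let `m j ≠ 0` and choose `k ∈ S j`,
`k = k' + 1`, as large as we like. Then `D * 2 ^ (eT k') * y` and `D * 2 ^ (eT k') * (∑ i ≤ k', ε i * 2 ^ (-eT i))`
are integers, so `D * 2 ^ (eT k') * tail` is an integer, where `tail = ∑' i ≥ k, ε i * 2 ^ (-eT i)`. The first
term of the tail has absolute value at least `2 ^ (-eT k)`, the sum of the others at most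
`2 * C * 2 ^ (-eT (k + 1))`, `C = ∑ |m j|`; so the tail is not zero and its absolute value is at most
`3 * C * 2 ^ (-eT k)`, which is less than `1 / (D * 2 ^ (eT k'))` for large `k`. Contradiction. See `xiT_split`, `tailT_le`,
`eT_step`, `eT_add`, `le_tow`. -/
def S_IRR : Prop := ∀ (n : ℕ) (S : Fin n → Set ℕ), (∀ j, (S j).Infinite) →
  (∀ i j, i ≠ j → Disjoint (S i) (S j)) → ∀ m : Fin n → ℤ, m ≠ 0 →
    Irrational (∑ j, m j * xiT (S j))

end Pool.Agent.P8H10.KM
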